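import Pool.Agent.Helper20.ZD.Cover

/-! # Isogeny-bounded sets: nondensity, and Zilber–Pink for curves -/

open UpperHalfPlane MvPolynomial Finset

namespace Pool.Agent.Helper20.ZD
open Pool.Agent.Helper11.ZP Pool.Agent.Helper11.ZU Pool.Agent.Helper20.ZT Pool.Agent.Helper20.ZT.Prim

variable {n : ℕ}

open Classical in
/-- the product of the modular polynomials of degree at most `M` -/
noncomputable def levelPoly (n M : ℕ) : MvPolynomial (Fin n) ℂ :=
  ∏ ij : Fin n × Fin n, ∏ N ∈ Finset.Icc 1 M,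
    if h : 0 < N ∧ ij.1 ≠ ij.2 then hypPoly N h.1 ij.1 ij.2 else 1

lemma eval_levelPoly {M : ℕ} {x : Fin n → ℂ} {i j : Fin n} {N : ℕ} (hij : i ≠ j) (hN : 0 < N)
    (hNM : N ≤ M) (h : CyclicIsog N (x i) (x j)) : eval x (levelPoly n M) = 0 := by
  classical
  rw [levelPoly, map_prod]
  refine Finset.prod_eq_zero (mem_univ (i, j)) ?_
  rw [map_prod]
  refine Finset.prod_eq_zero (i := N) (Finset.mem_Icc.2 ⟨hN, hNM⟩) ?_
  rw [dif_pos ⟨hN, hij⟩, eval_hypPoly]
  exact h

/-- if the product vanishes on `V` then `V` is contained in a special hypersurface -/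
lemma exists_of_levelPoly {M : ℕ} {V : Set (Fin n → ℂ)} (hV : IsSubvariety V)
    (h : levelPoly n M ∈ vanishingIdeal ℂ V) :
    ∃ (i j : Fin n) (N : ℕ), i ≠ j ∧ 0 < N ∧ N ≤ M ∧ ∀ x ∈ V, CyclicIsog N (x i) (x j) := by
  classical
  have hI := van_prime hV
  rw [levelPoly, hI.prod_mem_iff] at h
  obtain ⟨ij, -, h1⟩ := h
  rw [hI.prod_mem_iff] at h1
  obtain ⟨N, hN, h2⟩ := h1
  split_ifs at h2 with h3
  · exact ⟨ij.1, ij.2, N, h3.2, h3.1, (Finset.mem_Icc.1 hN).2, fun x hx => (eval_hypPoly h3.1 _ _ _).1 (mem_van.1 h2 x hx)⟩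
  · exact absurd ((Ideal.eq_top_iff_one _).2 h2) hI.ne_top

/-- **the atypical subvarieties are not dense** -/
theorem notDense {Δ : Set ℂ} (hΔ : IsogenyBounded Δ) {V : Set (Fin n → ℂ)} (hV : IsSubvariety V)
    (hVΔ : AtMost (dim V) Δ V) (hVS : ∀ S : SpecialData n, dim S.carrier < n → ¬ V ⊆ S.carrier) :
    AtypicalNotDense V := by
  obtain ⟨M, hM⟩ := cover hΔ
  refine ⟨levelPoly n M, ?_, ?_⟩
  · by_contra hcon
    push Not at hcon
    obtain ⟨i, j, N, hij, hN, -, h⟩ := exists_of_levelPoly (M := M) hV (mem_van.2 hcon)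
    exact hVS _ (dim_hypData hN hij) fun x hx => (mem_hypData hN hij x).2 (h x hx)
  · rintro A ⟨S, ⟨hA, hAVS, -⟩, hlt⟩ x hx
    obtain ⟨i, j, N, hij, hN, hNM, h⟩ := hM hVΔ S A hA hAVS hlt
    exact eval_levelPoly hij hN hNM (h x (hAVS hx).2)

/-- **Zilber–Pink for curves** -/
theorem zp_curve {Δ : Set ℂ} (hΔ : IsogenyBounded Δ) {C : Set (Fin n → ℂ)} (hC : IsSubvariety C)
    (h1 : dim C = 1) (hCΔ : AtMost 1 Δ C) :
    {A | IsAtypical C A ∧ ∀ B, IsAtypical C B → A ⊆ B → B = A}.Finite :=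
  finite_max hC h1 fun hCS => notDense hΔ hC (by rwa [h1]) hCS

/-- a coordinate which is not constant on `A` is transcendental on `A` -/
lemma transc_of_nonconst {A : Set (Fin n → ℂ)} (hA : IsSubvariety A) {i : Fin n}
    (hi : ∀ c : ℂ, ∃ x ∈ A, x i ≠ c) {f : MvPolynomial (Fin n) ℂ} (hf : f ≠ 0) (hfi : f.vars ⊆ {i}) :
    ∃ x ∈ A, eval x f ≠ 0 := by
  classical
  by_contra hcon
  push Not at hcon
  have hI := van_prime hA
  have hfI : f ∈ vanishingIdeal ℂ A := mem_van.2 hcon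
  have h1 : f ∈ MvPolynomial.supported ℂ ({i} : Set (Fin n)) := by
    rw [MvPolynomial.mem_supported]
    intro k hk
    simpa using hfi (Finset.mem_coe.1 hk)
  rw [MvPolynomial.supported_eq_adjoin_X, Set.image_singleton, Algebra.adjoin_singleton_eq_range_aeval] at h1
  obtain ⟨p, rfl⟩ := h1
  have hp0 : p ≠ 0 := by
    rintro rfl
    exact hf (map_zero _)
  have hsplit := IsAlgClosed.splits p
  have hp := hsplit.eq_prod_roots
  have hfI' : (Polynomial.aeval (X i : MvPolynomial (Fin n) ℂ)) p ∈ vanishingIdeal ℂ A := hfI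
  rw [hp, map_mul, Polynomial.aeval_C] at hfI'
  rcases hI.mem_or_mem hfI' with h2 | h2
  · have hu : IsUnit (algebraMap ℂ (MvPolynomial (Fin n) ℂ) p.leadingCoeff) :=
      (isUnit_iff_ne_zero.2 (Polynomial.leadingCoeff_ne_zero.2 hp0)).map _
    exact hI.ne_top (Ideal.eq_top_of_isUnit_mem _ h2 hu)
  · rw [map_multiset_prod, Multiset.map_map, hI.multiset_prod_mem_iff_exists_mem] at h2
    obtain ⟨q, hq, hq2⟩ := h2
    rw [Multiset.mem_map] at hq
    obtain ⟨c, -, rfl⟩ := hq
    obtain ⟨x, hx, hxc⟩ := hi c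
    have h3 := mem_van.1 hq2 x hx
    apply hxc
    simpa [sub_eq_zero] using h3

lemma isSubvariety_singleton (x : Fin n → ℂ) : IsSubvariety ({x} : Set (Fin n → ℂ)) := by
  refine ⟨RingHom.ker (eval x), RingHom.ker_isPrime _, ?_⟩
  ext y
  rw [Set.mem_singleton_iff, mem_zeroLocus_iff]
  constructor
  · rintro rfl f hf
    rw [aeval_eq_eval]
    exact hf
  · intro h
    funext i
    have h1 := h (X i - C (x i)) (by rw [RingHom.mem_ker, map_sub, eval_X, eval_C, sub_self])
    rw [aeval_eq_eval, map_sub, eval_X, eval_C, sub_eq_zero] at h1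
    exact h1

/-- **the points of a curve on the special subvarieties of codimension two**, at which at most one
coordinate is not in `Δ`, are finite in number: no condition on the curve -/
theorem finite_points {Δ : Set ℂ} (hΔ : IsogenyBounded Δ) {C : Set (Fin n → ℂ)} (hC : IsSubvariety C)
    (h1 : dim C = 1) (hCS : ∀ S : SpecialData n, dim S.carrier < n → ¬ C ⊆ S.carrier) :
    {x ∈ C | (∃ S : SpecialData n, dim S.carrier + 2 ≤ n ∧ x ∈ S.carrier) ∧
      ∀ i j, x i ∉ Δ → x j ∉ Δ → i = j}.Finite := by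
  classical
  obtain ⟨M, hM⟩ := cover hΔ
  have hf : levelPoly n M ∉ vanishingIdeal ℂ C := by
    intro hcon
    obtain ⟨i, j, N, hij, hN, -, h⟩ := exists_of_levelPoly (M := M) hC hcon
    exact hCS _ (dim_hypData hN hij) fun x hx => (mem_hypData hN hij x).2 (h x hx)
  refine (finite_section hC h1.le hf).subset ?_
  rintro x ⟨hx, ⟨S, hS, hxS⟩, hxΔ⟩
  refine ⟨hx, ?_⟩
  have hpt : IsSubvariety ({x} : Set (Fin n → ℂ)) := isSubvariety_singleton x
  have h0 : dim ({x} : Set (Fin n → ℂ)) = 0 := dim_of_finite (Set.finite_singleton x)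
  obtain ⟨i, j, N, hij, hN, hNM, h⟩ := hM (n := n) (d := 1) (V := {x}) (by
    rintro y rfl J hJ
    exact Finset.card_le_one.2 fun i hi j hj => hxΔ i j (hJ i hi) (hJ j hj)) S {x} hpt (by
      rintro y rfl
      exact ⟨rfl, hxS⟩) (by rw [h0]; omega)
  exact eval_levelPoly hij hN hNM (h x hxS)

/-- a curve without constant coordinates at whose points at most one coordinate is not in `Δ` is not
contained in a proper special subvariety -/
theorem not_special {Δ : Set ℂ} (hΔ : ∀ x ∈ Δ, ¬ IsSpecialPoint x) {C : Set (Fin n → ℂ)}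
    (hC : IsSubvariety C) (h1 : dim C = 1) (hCΔ : AtMost 1 Δ C) (hc : ∀ (i : Fin n) (c : ℂ), ∃ x ∈ C, x i ≠ c)
    (S : SpecialData n) (hS : dim S.carrier < n) : ¬ C ⊆ S.carrier := by
  classical
  intro hCS
  have hcls : ∀ i, ∃ s, S.cls i = some s := by
    intro i
    rcases h : S.cls i with _ | s
    · obtain ⟨x, hx, hx2⟩ := hc i (S.c i)
      exact absurd ((hCS hx).1 i h) hx2
    · exact ⟨s, rfl⟩
  choose s hs using hcls
  have hr := S.le_dim
  obtain ⟨i, -, j, -, hij, hsij⟩ := Finset.exists_ne_map_eq_of_card_lt_of_maps_to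
    (s := (univ : Finset (Fin n))) (t := (univ : Finset (Fin S.r)))
    (by rw [card_univ, card_univ, Fintype.card_fin, Fintype.card_fin]; omega)
    (f := s) (fun i _ => mem_coe.2 (mem_univ _))
  obtain ⟨x, hx, hxi⟩ := exists_spec' hC infinite_special {i} (by rw [card_singleton, h1])
    (fun f hf hf2 => transc_of_nonconst hC (hc i) hf hf2)
  have hxi' : IsSpecialPoint (x i) := hxi i (mem_singleton_self i)
  have hxj : IsSpecialPoint (x j) := special_of_class S (hs i) (by rw [hsij]; exact hs j) (hCS hx) hxi'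
  have h2 := hCΔ x hx {i, j} (by
    intro k hk
    rw [mem_insert, mem_singleton] at hk
    rcases hk with rfl | rfl
    · exact fun h => hΔ _ h hxi'
    · exact fun h => hΔ _ h hxj)
  rw [card_pair hij] at h2
  omega

/-- **curves without constant coordinates**: plain finiteness -/
theorem finite_codim_two {Δ : Set ℂ} (hΔ : IsogenyBounded Δ) {C : Set (Fin n → ℂ)}
    (hC : IsSubvariety C) (h1 : dim C = 1) (hCΔ : AtMost 1 Δ C) (hc : ∀ (i : Fin n) (c : ℂ), ∃ x ∈ C, x i ≠ c) :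
    {x ∈ C | ∃ S : SpecialData n, dim S.carrier + 2 ≤ n ∧ x ∈ S.carrier}.Finite := by
  refine (finite_points hΔ hC h1 (not_special hΔ.special hC h1 hCΔ hc)).subset ?_
  rintro x ⟨hx, hS⟩
  refine ⟨hx, hS, fun i j hi hj => ?_⟩
  by_contra hij
  have h2 := hCΔ x hx {i, j} (by
    intro k hk
    rw [mem_insert, mem_singleton] at hk
    rcases hk with rfl | rfl
    · exact hi
    · exact hj)
  rw [card_pair hij] at h2
  omega

end Pool.Agent.Helper20.ZD
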