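import Pool.Agent.Helper20.ZD.Defs

/-! # Sets whose equations split modulo a place -/

open MvPolynomial

namespace Pool.Agent.Helper20.ZD
open Pool.Agent.Helper11.ZP Pool.Agent.Helper11.ZU

lemma val_sum_le {v : AbsoluteValue ℂ ℝ} (hv : IsNonarchimedean v) {ι : Type*} (s : Finset ι)
    (f : ι → ℂ) {B : ℝ} (hB : 0 ≤ B) (h : ∀ i ∈ s, v (f i) ≤ B) : v (∑ i ∈ s, f i) ≤ B := by
  classical
  induction s using Finset.induction_on with
  | empty => simpa using hB
  | insert a s ha ih =>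
    rw [Finset.sum_insert ha]
    exact (hv _ _).trans (max_le (h a (Finset.mem_insert_self _ _))
      (ih fun i hi => h i (Finset.mem_insert_of_mem hi)))

/-- roots of a polynomial with integral coefficients and unit leading coefficient are integral -/
lemma val_root_le {v : AbsoluteValue ℂ ℝ} (hv : IsNonarchimedean v) {P : Polynomial ℂ}
    (hP : ∀ k, v (P.coeff k) ≤ 1) (hl : v P.leadingCoeff = 1) {r : ℂ} (hr : P.eval r = 0) : v r ≤ 1 := by
  by_contra hcon
  push Not at hcon
  have hP0 : P ≠ 0 := by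
    rintro rfl
    simp at hl
  rw [Polynomial.eval_eq_sum_range, Finset.sum_range_succ] at hr
  have h1 : P.coeff P.natDegree * r ^ P.natDegree = -∑ i ∈ Finset.range P.natDegree, P.coeff i * r ^ i := by
    linear_combination hr
  have h2 : v (P.coeff P.natDegree * r ^ P.natDegree) = v r ^ P.natDegree := by
    rw [map_mul, map_pow, Polynomial.coeff_natDegree, hl, one_mul]
  have h3 : 0 < P.natDegree := by
    by_contra h0
    push Not at h0
    have h4 : P.natDegree = 0 := by omega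
    rw [h4] at h1
    simp only [Finset.range_zero, Finset.sum_empty, neg_zero, pow_zero, mul_one] at h1
    have h5 := hl
    rw [Polynomial.leadingCoeff, h4, h1, map_zero] at h5
    exact zero_ne_one h5
  have h4 : v (∑ i ∈ Finset.range P.natDegree, P.coeff i * r ^ i) ≤ v r ^ (P.natDegree - 1) := by
    refine val_sum_le hv _ _ (pow_nonneg (v.nonneg _) _) fun i hi => ?_
    rw [Finset.mem_range] at hi
    rw [map_mul, map_pow]
    calc v (P.coeff i) * v r ^ i ≤ 1 * v r ^ i := by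
          gcongr
          exact hP i
      _ ≤ v r ^ (P.natDegree - 1) := by
          rw [one_mul]
          exact pow_le_pow_right₀ hcon.le (by omega)
  rw [← map_neg_eq_map v, ← h1, h2] at h4
  have h5 : v r ^ (P.natDegree - 1) < v r ^ P.natDegree := pow_lt_pow_right₀ hcon (by omega)
  exact absurd h4 (not_le.2 h5)

lemma prod_le_one'' {s : Multiset ℝ} (h0 : ∀ r ∈ s, 0 ≤ r) (h1 : ∀ r ∈ s, r ≤ 1) : s.prod ≤ 1 := by
  induction s using Multiset.induction_on with
  | empty => simp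
  | cons a s ih =>
    rw [Multiset.prod_cons]
    exact mul_le_one₀ (h1 a (Multiset.mem_cons_self a s))
      (Multiset.prod_nonneg fun r hr => h0 r (Multiset.mem_cons_of_mem hr))
      (ih (fun r hr => h0 r (Multiset.mem_cons_of_mem hr)) fun r hr => h1 r (Multiset.mem_cons_of_mem hr))

lemma prod_eq_one {s : Multiset ℝ} (h0 : ∀ r ∈ s, 0 ≤ r) (h1 : ∀ r ∈ s, r ≤ 1) (h : s.prod = 1) :
    ∀ r ∈ s, r = 1 := by
  induction s using Multiset.induction_on with
  | empty => simp
  | cons a s ih =>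
    rw [Multiset.prod_cons] at h
    have ha0 := h0 a (Multiset.mem_cons_self a s)
    have ha1 := h1 a (Multiset.mem_cons_self a s)
    have hs0 : 0 ≤ s.prod := Multiset.prod_nonneg fun r hr => h0 r (Multiset.mem_cons_of_mem hr)
    have hs1 : s.prod ≤ 1 := prod_le_one''
      (fun r hr => h0 r (Multiset.mem_cons_of_mem hr)) fun r hr => h1 r (Multiset.mem_cons_of_mem hr)
    have h2 : a = 1 := by nlinarith
    have h3 : s.prod = 1 := by rw [h2, one_mul] at h; exact h
    intro r hr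
    rcases Multiset.mem_cons.1 hr with rfl | hr
    · exact h2
    · exact ih (fun r hr => h0 r (Multiset.mem_cons_of_mem hr))
        (fun r hr => h1 r (Multiset.mem_cons_of_mem hr)) h3 r hr

/-- the roots of a polynomial with integral coefficients, whose leading and constant coefficients are
units, are units -/
lemma val_root_eq {v : AbsoluteValue ℂ ℝ} (hv : IsNonarchimedean v) {P : Polynomial ℂ}
    (hP : ∀ k, v (P.coeff k) ≤ 1) (hl : v P.leadingCoeff = 1) (hc : v (P.coeff 0) = 1) :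
    ∀ r ∈ P.roots, v r = 1 := by
  have hP0 : P ≠ 0 := by
    rintro rfl
    simp at hl
  have hsp : P.Splits := IsAlgClosed.splits P
  have h1 := hsp.eval_eq_prod_roots 0
  rw [← Polynomial.coeff_zero_eq_eval_zero] at h1
  have h2 : (P.roots.map fun r => v r).prod = 1 := by
    have h3 := congrArg v h1
    rw [hc, map_mul, hl, one_mul, map_multiset_prod, Multiset.map_map] at h3
    rw [h3]
    congr 1
    refine Multiset.map_congr rfl fun r _ => ?_
    simp
  have h4 := prod_eq_one (s := P.roots.map fun r => v r) ?_ ?_ h2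
  · intro r hr
    exact h4 _ (Multiset.mem_map_of_mem _ hr)
  · intro r hr
    obtain ⟨r', -, rfl⟩ := Multiset.mem_map.1 hr
    exact v.nonneg _
  · intro r hr
    obtain ⟨r', hr', rfl⟩ := Multiset.mem_map.1 hr
    exact val_root_le hv hP hl ((Polynomial.mem_roots hP0).1 hr')

/-- the value of a polynomial at a point which is not near a root -/
lemma val_eval_ge {v : AbsoluteValue ℂ ℝ} (hv : IsNonarchimedean v) {P : Polynomial ℂ}
    (hl : v P.leadingCoeff = 1) (hr : ∀ r ∈ P.roots, v r = 1) {ρ : ℝ} (hρ0 : 0 ≤ ρ) (hρ : ρ < 1) {y : ℂ}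
    (hy : ∀ r ∈ P.roots, ρ < v (y - r)) : (ρ * max 1 (v y)) ^ P.natDegree ≤ v (P.eval y) := by
  have hsp : P.Splits := IsAlgClosed.splits P
  rw [hsp.eval_eq_prod_roots y, map_mul, hl, one_mul, map_multiset_prod, Multiset.map_map,
    hsp.natDegree_eq_card_roots]
  have h0 : 0 ≤ ρ * max 1 (v y) := mul_nonneg hρ0 (le_trans zero_le_one (le_max_left _ _))
  have key : ∀ s : Multiset ℂ, (∀ r ∈ s, v r = 1) → (∀ r ∈ s, ρ < v (y - r)) →
      (ρ * max 1 (v y)) ^ s.card ≤ (s.map (v ∘ fun r => y - r)).prod := by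
    intro s
    induction s using Multiset.induction_on with
    | empty => intro _ _; simp
    | cons a s ih =>
      intro h1 h2
      rw [Multiset.card_cons, Multiset.map_cons, Multiset.prod_cons, pow_succ, mul_comm]
      have h3 := ih (fun r hr => h1 r (Multiset.mem_cons_of_mem hr))
        fun r hr => h2 r (Multiset.mem_cons_of_mem hr)
      have h4 : ρ * max 1 (v y) ≤ v (y - a) := by
        have h5 := h1 a (Multiset.mem_cons_self a s)
        have h6 := h2 a (Multiset.mem_cons_self a s)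
        rcases le_or_gt (v y) 1 with h7 | h7
        · rw [max_eq_left h7, mul_one]
          exact h6.le
        · rw [max_eq_right h7.le]
          have h8 : v (y - a) = v y := by
            rw [sub_eq_add_neg]
            apply hv.add_eq_left_of_lt
            rw [map_neg_eq_map, h5]
            exact h7
          rw [h8]
          nlinarith
      exact mul_le_mul h4 h3 (pow_nonneg h0 _) (v.nonneg _)
  exact key P.roots hr hy

variable {n : ℕ}

/-- the value of a polynomial with small coefficients -/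
lemma val_eval_le {v : AbsoluteValue ℂ ℝ} (hv : IsNonarchimedean v) {g : MvPolynomial (Fin n) ℂ}
    {ε : ℝ} (hε : 0 ≤ ε) (hg : ∀ m, v (g.coeff m) ≤ ε) {D : Fin n → ℕ} (hD : ∀ i, g.degreeOf i ≤ D i)
    (y : Fin n → ℂ) : v (eval y g) ≤ ε * ∏ i, (max 1 (v (y i))) ^ D i := by
  have h1 : ∀ i, (1 : ℝ) ≤ max 1 (v (y i)) := fun i => le_max_left _ _
  rw [eval_eq']
  refine val_sum_le hv _ _ (mul_nonneg hε (Finset.prod_nonneg fun i _ =>
    pow_nonneg (zero_le_one.trans (h1 i)) _)) fun m hm => ?_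
  rw [map_mul, map_prod]
  refine mul_le_mul (hg m) ?_ (Finset.prod_nonneg fun i _ => v.nonneg _) hε
  refine Finset.prod_le_prod (fun i _ => v.nonneg _) fun i _ => ?_
  rw [map_pow]
  calc v (y i) ^ m i ≤ (max 1 (v (y i))) ^ m i := pow_le_pow_left₀ (v.nonneg _) (le_max_right _ _) _
    _ ≤ (max 1 (v (y i))) ^ D i :=
      pow_le_pow_right₀ (h1 i) ((monomial_le_degreeOf i hm).trans (hD i))

lemma exists_eps {v : AbsoluteValue ℂ ℝ} {g : MvPolynomial (Fin n) ℂ} (hg : ∀ m, v (g.coeff m) < 1) :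
    ∃ ε : ℝ, 0 ≤ ε ∧ ε < 1 ∧ ∀ m, v (g.coeff m) ≤ ε := by
  classical
  by_cases h : g.support.Nonempty
  · obtain ⟨m₀, -, h0⟩ := Finset.exists_max_image g.support (fun m => v (g.coeff m)) h
    refine ⟨v (g.coeff m₀), v.nonneg _, hg m₀, fun m => ?_⟩
    by_cases hm : m ∈ g.support
    · exact h0 m hm
    · rw [notMem_support_iff.1 hm, map_zero]
      exact v.nonneg _
  · refine ⟨0, le_rfl, one_pos, fun m => ?_⟩
    rw [Finset.not_nonempty_iff_eq_empty] at h
    have hm : m ∉ g.support := by rw [h]; simp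
    rw [notMem_support_iff.1 hm, map_zero]

lemma exists_rho {ε : ℝ} (h1 : ε < 1) (hε : 0 ≤ ε) (K : ℕ) : ∃ ρ : ℝ, 0 ≤ ρ ∧ ρ < 1 ∧ ε < ρ ^ K := by
  refine ⟨1 - (1 - ε) / (K + 1), ?_, ?_, ?_⟩
  · have : (1 - ε) / (K + 1) ≤ 1 := by
      rw [div_le_one (by positivity)]
      have : (0 : ℝ) ≤ K := Nat.cast_nonneg K
      linarith
    linarith
  · have : 0 < (1 - ε) / (K + 1) := div_pos (by linarith) (by positivity)
    linarith
  · have hK : (0 : ℝ) ≤ K := Nat.cast_nonneg K
    have h2 : (1 - ε) / (K + 1) ≤ 1 := by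
      rw [div_le_one (by positivity)]
      linarith
    have h3 := one_add_mul_le_pow (a := -((1 - ε) / (K + 1))) (by linarith) K
    have h4 : 1 + (K : ℝ) * -((1 - ε) / (K + 1)) = ε + (1 - ε) / (K + 1) := by
      field_simp
      ring
    have h5 : 0 < (1 - ε) / (K + 1) := div_pos (by linarith) (by positivity)
    rw [h4] at h3
    rw [sub_eq_add_neg]
    linarith

lemma degreeOf_eq_zero_of_notMem {f : MvPolynomial (Fin n) ℂ} {i : Fin n} (h : i ∉ f.vars) :
    f.degreeOf i = 0 := by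
  classical
  rw [degreeOf_def, Multiset.count_eq_zero]
  intro h1
  apply h
  rw [vars_def, Multiset.mem_toFinset]
  exact h1

lemma degreeOf_aeval_X (P : Polynomial ℂ) (i j : Fin n) :
    (Polynomial.aeval (X i : MvPolynomial (Fin n) ℂ) P).degreeOf j ≤ if j = i then P.natDegree else 0 := by
  classical
  rw [Polynomial.aeval_eq_sum_range]
  refine (degreeOf_sum_le _ _ _).trans (Finset.sup_le fun k hk => ?_)
  rw [Finset.mem_range] at hk
  rw [smul_eq_C_mul]
  refine (degreeOf_C_mul_le _ _ _).trans ((degreeOf_pow_le _ _ _).trans ?_)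
  rw [degreeOf_X]
  split_ifs
  · omega
  · simp

/-- the zeros of a polynomial which splits modulo the place have a coordinate near one of the roots of
the factors -/
theorem near_roots {v : AbsoluteValue ℂ ℝ} (hv : IsNonarchimedean v) {J : Finset (Fin n)}
    {f : MvPolynomial (Fin n) ℂ} (hvars : f.vars ⊆ J) {P : Fin n → Polynomial ℂ}
    (hP : ∀ i ∈ J, (∀ k, v ((P i).coeff k) ≤ 1) ∧ v (P i).leadingCoeff = 1 ∧ v ((P i).coeff 0) = 1 ∧
      f.degreeOf i ≤ (P i).natDegree)
    (hcong : ∀ m, v ((f - ∏ i ∈ J, Polynomial.aeval (X i : MvPolynomial (Fin n) ℂ) (P i)).coeff m) < 1) :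
    ∃ ρ : ℝ, ρ < 1 ∧
      ∀ y : Fin n → ℂ, eval y f = 0 → ∃ i ∈ J, ∃ r ∈ (P i).roots, v (y i - r) ≤ ρ := by
  classical
  set g := f - ∏ i ∈ J, Polynomial.aeval (X i : MvPolynomial (Fin n) ℂ) (P i) with hg
  obtain ⟨ε, hε0, hε1, hε⟩ := exists_eps hcong
  obtain ⟨ρ, hρ0, hρ1, hρ⟩ := exists_rho hε1 hε0 (∑ i ∈ J, (P i).natDegree)
  have hroots : ∀ i ∈ J, ∀ r ∈ (P i).roots, v r = 1 := fun i hi =>
    val_root_eq hv (hP i hi).1 (hP i hi).2.1 (hP i hi).2.2.1
  refine ⟨ρ, hρ1, ?_⟩
  · intro y hy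
    by_contra hcon
    push Not at hcon
    have hfar : ∀ i ∈ J, ∀ r ∈ (P i).roots, ρ < v (y i - r) := hcon
    -- the degrees of `g`
    set D : Fin n → ℕ := fun i => if i ∈ J then (P i).natDegree else 0 with hD
    have hgD : ∀ i, g.degreeOf i ≤ D i := by
      intro i
      refine (degreeOf_sub_le _ _ _).trans (max_le ?_ ?_)
      · by_cases hi : i ∈ J
        · simp only [hD, if_pos hi]
          exact (hP i hi).2.2.2
        · rw [degreeOf_eq_zero_of_notMem fun h => hi (hvars h)]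
          exact Nat.zero_le _
      · refine (degreeOf_prod_le _ _ _).trans ?_
        refine (Finset.sum_le_sum fun j _ => degreeOf_aeval_X (P j) j i).trans ?_
        rw [Finset.sum_ite_eq]
    have h1 := val_eval_le hv hε0 hε hgD y
    have h2 : ∏ i, (max 1 (v (y i))) ^ D i = ∏ i ∈ J, (max 1 (v (y i))) ^ (P i).natDegree := by
      rw [← Finset.prod_subset (Finset.subset_univ J)]
      · refine Finset.prod_congr rfl fun i hi => ?_
        simp only [hD, if_pos hi]
      · intro i _ hi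
        simp only [hD, if_neg hi, pow_zero]
    have h3 : eval y g = -∏ i ∈ J, (P i).eval (y i) := by
      rw [hg, map_sub, hy, zero_sub, map_prod]
      congr 1
      refine Finset.prod_congr rfl fun i _ => ?_
      have h4 := Polynomial.aeval_algHom_apply (aeval y : MvPolynomial (Fin n) ℂ →ₐ[ℂ] ℂ)
        (X i : MvPolynomial (Fin n) ℂ) (P i)
      rw [aeval_X] at h4
      rw [← aeval_eq_eval]
      change (aeval y : MvPolynomial (Fin n) ℂ →ₐ[ℂ] ℂ) (Polynomial.aeval (X i) (P i)) = _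
      rw [← h4, Polynomial.coe_aeval_eq_eval]
    rw [h2, h3, map_neg_eq_map, map_prod] at h1
    have h4 : ∏ i ∈ J, (ρ * max 1 (v (y i))) ^ (P i).natDegree ≤ ∏ i ∈ J, v ((P i).eval (y i)) := by
      refine Finset.prod_le_prod (fun i _ => pow_nonneg (mul_nonneg hρ0
        (zero_le_one.trans (le_max_left _ _))) _) fun i hi => ?_
      exact val_eval_ge hv (hP i hi).2.1 (hroots i hi) hρ0 hρ1 (hfar i hi)
    have h5 : ∏ i ∈ J, (ρ * max 1 (v (y i))) ^ (P i).natDegree =
        ρ ^ (∑ i ∈ J, (P i).natDegree) * ∏ i ∈ J, (max 1 (v (y i))) ^ (P i).natDegree := by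
      rw [← Finset.prod_pow_eq_pow_sum, ← Finset.prod_mul_distrib]
      exact Finset.prod_congr rfl fun i _ => mul_pow _ _ _
    rw [h5] at h4
    have h6 : 0 < ∏ i ∈ J, (max 1 (v (y i))) ^ (P i).natDegree :=
      Finset.prod_pos fun i _ => pow_pos (lt_of_lt_of_le one_pos (le_max_left _ _)) _
    have h7 := le_of_mul_le_mul_right (h4.trans h1) h6
    exact absurd hρ (not_lt.2 h7)

/-- the zeros of a polynomial which splits modulo the place have a coordinate near one of finitely many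
units -/
theorem SplitsMod.near {v : AbsoluteValue ℂ ℝ} (hv : IsNonarchimedean v) {J : Finset (Fin n)}
    {f : MvPolynomial (Fin n) ℂ} (h : SplitsMod v J f) :
    ∃ (R : Finset ℂ) (ρ : ℝ), ρ < 1 ∧ (∀ r ∈ R, v r = 1) ∧
      ∀ y : Fin n → ℂ, eval y f = 0 → ∃ i ∈ J, ∃ r ∈ R, v (y i - r) ≤ ρ := by
  classical
  obtain ⟨hvars, P, hP, hcong⟩ := h
  obtain ⟨ρ, hρ1, h⟩ := near_roots hv hvars hP hcong
  refine ⟨J.biUnion fun i => (P i).roots.toFinset, ρ, hρ1, ?_, fun y hy => ?_⟩
  · intro r hr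
    rw [Finset.mem_biUnion] at hr
    obtain ⟨i, hi, hr⟩ := hr
    exact val_root_eq hv (hP i hi).1 (hP i hi).2.1 (hP i hi).2.2.1 r (Multiset.mem_toFinset.1 hr)
  · obtain ⟨i, hi, r, hr, hle⟩ := h y hy
    exact ⟨i, hi, r, Finset.mem_biUnion.2 ⟨i, hi, Multiset.mem_toFinset.2 hr⟩, hle⟩

/-- **congruence form of the condition** -/
theorem discs_of_splits (v : AbsoluteValue ℂ ℝ) (hv : IsNonarchimedean v) {V : Set (Fin n → ℂ)} {d : ℕ}
    {s : Fin n → ℂ} (hs : ∀ i, 1 < v (s i))
    (h : ∀ J : Finset (Fin n), J.card = d + 1 → ∃ f, SplitsMod v J f ∧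
      ∀ x ∈ V, eval (fun i => x i / s i) f = 0) :
    ∃ (F : Finset ℂ) (ρ : ℝ), (∀ c ∈ F, 1 < v c) ∧ ρ < 1 ∧ AtMost d (discs v F ρ) V := by
  classical
  choose f hf hfV using h
  choose R ρ hρ1 hR hnear using fun J hJ => (hf J hJ).near hv
  let 𝒥 : Finset (Finset (Fin n)) := Finset.univ.filter fun J => J.card = d + 1
  have hmem : ∀ J, J ∈ 𝒥 → J.card = d + 1 := fun J hJ => (Finset.mem_filter.1 hJ).2
  obtain ⟨σ, hσ1, hσ⟩ : ∃ σ : ℝ, σ < 1 ∧ ∀ (J : Finset (Fin n)) (hJ : J.card = d + 1), ρ J hJ ≤ σ := by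
    by_cases hne : 𝒥.attach.Nonempty
    · obtain ⟨J₀, -, h0⟩ := Finset.exists_max_image 𝒥.attach (fun J => ρ J.1 (hmem J.1 J.2)) hne
      exact ⟨_, hρ1 J₀.1 (hmem _ J₀.2), fun J hJ =>
        h0 ⟨J, Finset.mem_filter.2 ⟨Finset.mem_univ _, hJ⟩⟩ (Finset.mem_attach _ _)⟩
    · refine ⟨0, one_pos, fun J hJ => ?_⟩
      exact absurd ⟨⟨J, Finset.mem_filter.2 ⟨Finset.mem_univ _, hJ⟩⟩, Finset.mem_attach _ _⟩ hne
  refine ⟨𝒥.attach.biUnion fun J => Finset.univ.biUnion fun i =>
    (R J.1 (hmem J.1 J.2)).image fun r => s i * r, σ, ?_, hσ1, ?_⟩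
  · intro c hc
    simp only [Finset.mem_biUnion, Finset.mem_image] at hc
    obtain ⟨J, -, i, -, r, hr, rfl⟩ := hc
    rw [map_mul, hR _ _ r hr, mul_one]
    exact hs i
  · intro x hx T hT
    by_contra hcon
    push Not at hcon
    obtain ⟨J, hJT, hJ⟩ := Finset.exists_subset_card_eq (show d + 1 ≤ T.card from hcon)
    obtain ⟨i, hi, r, hr, hle⟩ := hnear J hJ _ (hfV J hJ x hx)
    refine hT i (hJT hi) ⟨s i * r, ?_, ?_⟩
    · simp only [Finset.mem_biUnion, Finset.mem_image]
      exact ⟨⟨J, Finset.mem_filter.2 ⟨Finset.mem_univ _, hJ⟩⟩, Finset.mem_attach _ _, i,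
        Finset.mem_univ _, r, hr, rfl⟩
    · have hsi : s i ≠ 0 := by
        intro h0
        have h1 := hs i
        rw [h0, map_zero] at h1
        exact absurd h1 (by norm_num)
      have h1 : x i - s i * r = s i * (x i / s i - r) := by field_simp
      rw [h1, map_mul, map_mul, hR _ _ r hr, mul_one, mul_comm]
      exact mul_le_mul_of_nonneg_right (hle.trans (hσ J hJ)) (v.nonneg _)

end Pool.Agent.Helper20.ZD
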