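import Mathlib

/-! # Nonarchimedean absolute values: elements close to one, the valuation ring -/

namespace Pool.Agent.Helper20.ZD

section near
variable {v : AbsoluteValue ℂ ℝ}

lemma v_neg (v : AbsoluteValue ℂ ℝ) (x : ℂ) : v (-x) = v x := AbsoluteValue.map_neg v x

lemma v_sub_comm (v : AbsoluteValue ℂ ℝ) (x y : ℂ) : v (x - y) = v (y - x) := AbsoluteValue.map_sub v x y

lemma v_sub_le (hv : IsNonarchimedean v) (x y : ℂ) : v (x - y) ≤ max (v x) (v y) := by
  have h := hv x (-y)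
  rwa [v_neg, ← sub_eq_add_neg] at h

/-- the larger term wins -/
lemma v_add_eq (hv : IsNonarchimedean v) {x y : ℂ} (h : v y < v x) : v (x + y) = v x := by
  refine le_antisymm ((hv x y).trans (max_le le_rfl h.le)) ?_
  have h1 := v_sub_le hv (x + y) y
  rw [add_sub_cancel_right] at h1
  rcases le_max_iff.1 h1 with h2 | h2
  · exact h2
  · exact absurd h2 (not_le.2 h)

lemma v_eq_of_sub_lt (hv : IsNonarchimedean v) {x c : ℂ} (h : v (x - c) < v c) : v x = v c := by
  have h1 := v_add_eq hv h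
  rwa [add_sub_cancel] at h1

lemma v_one_of_near (hv : IsNonarchimedean v) {u : ℂ} (h : v (u - 1) < 1) : v u = 1 := by
  have h1 := v_eq_of_sub_lt hv (x := u) (c := 1) (by rwa [map_one])
  rwa [map_one] at h1

variable {ρ : ℝ}

lemma near_nonneg {u : ℂ} (h : v (u - 1) ≤ ρ) : 0 ≤ ρ := (AbsoluteValue.nonneg v _).trans h

lemma near_mul (hv : IsNonarchimedean v) (hρ : ρ < 1) {u w : ℂ} (hu : v (u - 1) ≤ ρ) (hw : v (w - 1) ≤ ρ) :
    v (u * w - 1) ≤ ρ := by
  have h1 : u * w - 1 = u * (w - 1) + (u - 1) := by ring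
  rw [h1]
  refine (hv _ _).trans (max_le ?_ hu)
  rw [map_mul, v_one_of_near hv (hu.trans_lt hρ), one_mul]
  exact hw

lemma near_inv (hv : IsNonarchimedean v) (hρ : ρ < 1) {u : ℂ} (hu : v (u - 1) ≤ ρ) :
    v (u⁻¹ - 1) ≤ ρ := by
  have h1 := v_one_of_near hv (hu.trans_lt hρ)
  have h0 : u ≠ 0 := by
    rintro rfl
    rw [map_zero] at h1
    exact zero_ne_one h1
  have h2 : u⁻¹ - 1 = u⁻¹ * (1 - u) := by field_simp
  rw [h2, map_mul, map_inv₀, h1, inv_one, one_mul, v_sub_comm]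
  exact hu

lemma near_one (hρ0 : 0 ≤ ρ) : v ((1 : ℂ) - 1) ≤ ρ := by rwa [sub_self, map_zero]

lemma near_pow (hv : IsNonarchimedean v) (hρ : ρ < 1) {u : ℂ} (hu : v (u - 1) ≤ ρ) (k : ℕ) :
    v (u ^ k - 1) ≤ ρ := by
  induction k with
  | zero => rw [pow_zero]; exact near_one (near_nonneg hu)
  | succ k ih => rw [pow_succ]; exact near_mul hv hρ ih hu

end near

/-- the valuation ring of a nonarchimedean absolute value -/
def vring (v : AbsoluteValue ℂ ℝ) (hv : IsNonarchimedean v) : ValuationSubring ℂ where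
  carrier := {x | v x ≤ 1}
  mul_mem' {a b} ha hb := by
    change v (a * b) ≤ 1
    rw [map_mul]
    exact mul_le_one₀ ha (AbsoluteValue.nonneg v _) hb
  one_mem' := by
    change v 1 ≤ 1
    rw [map_one]
  add_mem' {a b} ha hb := (hv a b).trans (max_le ha hb)
  zero_mem' := by
    change v 0 ≤ 1
    rw [map_zero]
    exact zero_le_one
  neg_mem' {a} ha := by
    change v (-a) ≤ 1
    rw [v_neg]
    exact ha
  mem_or_inv_mem' x := by
    by_cases h : v x ≤ 1
    · exact Or.inl h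
    · right
      change v x⁻¹ ≤ 1
      rw [map_inv₀]
      exact inv_le_one_of_one_le₀ (not_le.1 h).le

lemma mem_vring {v : AbsoluteValue ℂ ℝ} {hv : IsNonarchimedean v} {x : ℂ} : x ∈ vring v hv ↔ v x ≤ 1 :=
  Iff.rfl

end Pool.Agent.Helper20.ZD
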