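import Pool.Agent.Helper11.ZU.Final

/-! # Isogeny-bounded sets: definitions -/

open UpperHalfPlane MvPolynomial

namespace Pool.Agent.Helper20.ZD
open Pool.Agent.Helper11.ZP Pool.Agent.Helper11.ZU

/-- `Δ` is isogeny-bounded: it contains no special point, and the degrees of the cyclic isogenies
between its elements are bounded -/
structure IsogenyBounded (Δ : Set ℂ) : Prop where
  special : ∀ x ∈ Δ, ¬ IsSpecialPoint x
  bounded : ∃ M : ℕ, ∀ x ∈ Δ, ∀ y ∈ Δ, ∀ N : ℕ, CyclicIsog N x y → N ≤ M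

/-- the union of the discs `v(x - c) ≤ ρ v(c)`, `c ∈ F` -/
def discs (v : AbsoluteValue ℂ ℝ) (F : Finset ℂ) (ρ : ℝ) : Set ℂ := {x | ∃ c ∈ F, v (x - c) ≤ ρ * v c}

variable {n : ℕ}

/-- at most `d` coordinates of a point of `V` are not in `Δ` -/
def AtMost (d : ℕ) (Δ : Set ℂ) (V : Set (Fin n → ℂ)) : Prop :=
  ∀ x ∈ V, ∀ J : Finset (Fin n), (∀ i ∈ J, x i ∉ Δ) → J.card ≤ d

/-- `f` is a polynomial in the variables `Y_i`, `i ∈ J`, which is congruent modulo the maximal ideal of
`v` to a product of polynomials `P_i(Y_i)`, of the same degrees, whose coefficients are `v`-integral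
and whose leading and constant coefficients are units -/
def SplitsMod (v : AbsoluteValue ℂ ℝ) (J : Finset (Fin n)) (f : MvPolynomial (Fin n) ℂ) : Prop :=
  f.vars ⊆ J ∧ ∃ P : Fin n → Polynomial ℂ,
    (∀ i ∈ J, (∀ k, v ((P i).coeff k) ≤ 1) ∧ v (P i).leadingCoeff = 1 ∧ v ((P i).coeff 0) = 1 ∧
      f.degreeOf i ≤ (P i).natDegree) ∧
    ∀ m, v ((f - ∏ i ∈ J, Polynomial.aeval (X i : MvPolynomial (Fin n) ℂ) (P i)).coeff m) < 1

/-- the hereditary form of `AtMost`: for every special subvariety `T` without constant coordinates and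
every component `W` of `V ∩ T` of positive dimension at most `e = dim V + dim T - n`, at every point of
`W` at most `e` of the classes of isogenous coordinates of `T` contain no coordinate in `Δ` -/
def Hereditary (Δ : Set ℂ) (V : Set (Fin n → ℂ)) : Prop :=
  ∀ T : SpecialData n, (∀ i, T.cls i ≠ none) → ∀ W, IsComponent W (V ∩ T.carrier) → 0 < dim W →
    dim W + n ≤ dim V + dim T.carrier → ∀ x ∈ W, ∀ J : Finset (Fin T.r),
      (∀ s ∈ J, ∀ i, T.cls i = some s → x i ∉ Δ) → J.card + n ≤ dim V + dim T.carrier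

end Pool.Agent.Helper20.ZD
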