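import Pool.Agent.Helper20.ZD.Defs

/-! # Roots of unity in a disc of radius less than one -/

open Polynomial

namespace Pool.Agent.Helper20.ZD

lemma val_root {v : AbsoluteValue ℂ ℝ} {ζ : ℂ} {g : ℕ} (hg : 0 < g) (h : ζ ^ g = 1) : v ζ = 1 := by
  have h1 : (v ζ) ^ g = 1 := by rw [← map_pow, h, map_one]
  exact (pow_eq_one_iff_of_nonneg (v.nonneg _) hg.ne').1 h1

lemma val_pow_sub_one {v : AbsoluteValue ℂ ℝ} (hv : IsNonarchimedean v) {ξ : ℂ} (hξ : v ξ ≤ 1) (k : ℕ) :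
    v (ξ ^ k - 1) ≤ v (ξ - 1) := by
  induction k with
  | zero => simp
  | succ k ih =>
    have h1 : ξ ^ (k + 1) - 1 = ξ * (ξ ^ k - 1) + (ξ - 1) := by ring
    rw [h1]
    refine (hv _ _).trans (max_le ?_ le_rfl)
    rw [map_mul]
    calc v ξ * v (ξ ^ k - 1) ≤ 1 * v (ξ ^ k - 1) := by gcongr
      _ ≤ v (ξ - 1) := by rw [one_mul]; exact ih

lemma val_one_sub {v : AbsoluteValue ℂ ℝ} (x : ℂ) : v (1 - x) = v (x - 1) := by
  rw [← neg_sub, map_neg_eq_map]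

/-- the product of `1 - μ` over the primitive roots -/
lemma val_prime_le {v : AbsoluteValue ℂ ℝ} (hv : IsNonarchimedean v) {p k : ℕ} (hp : p.Prime)
    {ξ : ℂ} (hξ : IsPrimitiveRoot ξ (p ^ (k + 1))) :
    v (p : ℂ) ≤ v (ξ - 1) ^ (Nat.totient (p ^ (k + 1))) := by
  have := Fact.mk hp
  have hpos : 0 < p ^ (k + 1) := pow_pos hp.pos _
  have : NeZero (p ^ (k + 1)) := ⟨hpos.ne'⟩
  have h1 := eval_one_cyclotomic_prime_pow (R := ℂ) (p := p) k
  rw [cyclotomic_eq_prod_X_sub_primitiveRoots hξ, eval_prod] at h1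
  rw [← h1, map_prod, ← hξ.card_primitiveRoots, ← Finset.prod_const]
  refine Finset.prod_le_prod (fun i _ => v.nonneg _) fun μ hμ => ?_
  rw [mem_primitiveRoots hpos] at hμ
  obtain ⟨i, -, rfl⟩ := hξ.eq_pow_of_pow_eq_one hμ.pow_eq_one
  rw [eval_sub, eval_X, eval_C, val_one_sub]
  exact val_pow_sub_one hv (val_root hpos hξ.pow_eq_one).le i

lemma two_primes {v : AbsoluteValue ℂ ℝ} (hv : IsNonarchimedean v) {p q : ℕ} (hp : p.Prime)
    (hq : q.Prime) (h1 : v (p : ℂ) < 1) (h2 : v (q : ℂ) < 1) : p = q := by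
  by_contra hne
  have hco : IsCoprime (p : ℤ) (q : ℤ) := Nat.isCoprime_iff_coprime.2 ((Nat.coprime_primes hp hq).2 hne)
  obtain ⟨a, b, hab⟩ := hco
  have h3 : (a : ℂ) * (p : ℂ) + (b : ℂ) * (q : ℂ) = 1 := by exact_mod_cast hab
  have h4 : v ((a : ℂ) * (p : ℂ) + (b : ℂ) * (q : ℂ)) < 1 := by
    refine lt_of_le_of_lt (hv _ _) (max_lt ?_ ?_)
    · rw [map_mul]
      calc v (a : ℂ) * v (p : ℂ) ≤ 1 * v (p : ℂ) := by
            gcongr
            exact hv.apply_intCast_le_one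
        _ < 1 := by rw [one_mul]; exact h1
    · rw [map_mul]
      calc v (b : ℂ) * v (q : ℂ) ≤ 1 * v (q : ℂ) := by
            gcongr
            exact hv.apply_intCast_le_one
        _ < 1 := by rw [one_mul]; exact h2
  rw [h3, map_one] at h4
  exact lt_irrefl _ h4

/-- if a root of unity `ξ ≠ 1` is congruent to `1`, then its order is a power of a prime `p` with
`v p < 1` -/
lemma prime_pow_order {v : AbsoluteValue ℂ ℝ} (hv : IsNonarchimedean v) {ξ : ℂ} {h : ℕ} (h0 : 0 < h)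
    (hξ : IsPrimitiveRoot ξ h) (hlt : v (ξ - 1) < 1) {q : ℕ} (hq : q.Prime) (hqh : q ∣ h) :
    v (q : ℂ) < 1 := by
  obtain ⟨m, hm⟩ := hqh
  have h1 : IsPrimitiveRoot (ξ ^ m) q := hξ.pow h0 (by rw [hm, mul_comm])
  have h2 : IsPrimitiveRoot (ξ ^ m) (q ^ (0 + 1)) := by simpa using h1
  have h3 := val_prime_le hv hq h2
  refine lt_of_le_of_lt h3 ?_
  have h4 : v (ξ ^ m - 1) < 1 := lt_of_le_of_lt (val_pow_sub_one hv (val_root h0 hξ.pow_eq_one).le m) hlt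
  refine pow_lt_one₀ (v.nonneg _) h4 ?_
  exact (Nat.totient_pos.2 (pow_pos hq.pos _)).ne'

/-- the roots of unity near `1` have bounded order -/
lemma order_bound_one (v : AbsoluteValue ℂ ℝ) (hv : IsNonarchimedean v) {ρ : ℝ} (hρ : ρ < 1) :
    ∃ H : ℕ, ∀ (ξ : ℂ) (h : ℕ), 0 < h → IsPrimitiveRoot ξ h → v (ξ - 1) ≤ ρ → h ≤ H := by
  by_cases hex : ∃ p : ℕ, p.Prime ∧ v (p : ℂ) < 1
  · obtain ⟨p, hp, hvp⟩ := hex
    have hp0 : 0 < v (p : ℂ) := v.pos (by exact_mod_cast hp.ne_zero)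
    set σ := max ρ 0 with hσ
    have hσ1 : σ < 1 := max_lt hρ one_pos
    obtain ⟨T, hT⟩ := exists_pow_lt_of_lt_one hp0 hσ1
    refine ⟨2 * T + 1, fun ξ h h0 hξ hle => ?_⟩
    have hlt : v (ξ - 1) < 1 := lt_of_le_of_lt hle hρ
    -- every prime factor of `h` is `p`
    have hfac : ∀ q : ℕ, q.Prime → q ∣ h → q = p := fun q hq hqh =>
      two_primes hv hq hp (prime_pow_order hv h0 hξ hlt hq hqh) hvp
    obtain ⟨k, hk⟩ : ∃ k, h = p ^ k := by
      refine ⟨_, Nat.eq_prime_pow_of_unique_prime_dvd h0.ne' fun {q} hq hqh => hfac q hq hqh⟩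
    rcases k with _ | k
    · rw [hk]; simp
    · subst hk
      have h3 := val_prime_le hv hp hξ
      have h4 : v (ξ - 1) ≤ σ := hle.trans (le_max_left _ _)
      have h5 : v (p : ℂ) ≤ σ ^ (Nat.totient (p ^ (k + 1))) :=
        h3.trans (pow_le_pow_left₀ (v.nonneg _) h4 _)
      have h6 : Nat.totient (p ^ (k + 1)) < T := by
        by_contra hcon
        push Not at hcon
        have h7 : σ ^ (Nat.totient (p ^ (k + 1))) ≤ σ ^ T :=
          pow_le_pow_of_le_one (le_max_right _ _) hσ1.le hcon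
        exact absurd (lt_of_le_of_lt (h5.trans h7) hT) (lt_irrefl _)
      have h8 : p ^ (k + 1) ≤ 2 * Nat.totient (p ^ (k + 1)) := by
        rw [Nat.totient_prime_pow_succ hp, pow_succ]
        have h9 : p ≤ 2 * (p - 1) := by
          have := hp.two_le
          omega
        calc p ^ k * p ≤ p ^ k * (2 * (p - 1)) := Nat.mul_le_mul_left _ h9
          _ = 2 * (p ^ k * (p - 1)) := by ring
      omega
  · refine ⟨1, fun ξ h h0 hξ hle => ?_⟩
    by_contra hcon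
    push Not at hcon
    obtain ⟨q, hq, hqh⟩ := Nat.exists_prime_and_dvd hcon.ne'
    exact hex ⟨q, hq, prime_pow_order hv h0 hξ (lt_of_le_of_lt hle hρ) hq hqh⟩

/-- **the roots of unity in a disc of radius `ρ < 1` have bounded order** -/
theorem root_bound (v : AbsoluteValue ℂ ℝ) (hv : IsNonarchimedean v) {ρ : ℝ} (hρ : ρ < 1) (u : ℂ) :
    ∃ G : ℕ, ∀ (ζ : ℂ) (g : ℕ), 0 < g → IsPrimitiveRoot ζ g → v (ζ - u) ≤ ρ → g ≤ G := by
  by_cases hex : ∃ (ζ₀ : ℂ) (g₀ : ℕ), 0 < g₀ ∧ IsPrimitiveRoot ζ₀ g₀ ∧ v (ζ₀ - u) ≤ ρ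
  · obtain ⟨ζ₀, g₀, hg₀, hζ₀, h₀⟩ := hex
    obtain ⟨H, hH⟩ := order_bound_one v hv hρ
    refine ⟨g₀ * H, fun ζ g hg hζ h => ?_⟩
    have hz0 : ζ₀ ≠ 0 := hζ₀.ne_zero hg₀.ne'
    set ξ := ζ / ζ₀ with hξ
    have hv0 : v ζ₀ = 1 := val_root hg₀ hζ₀.pow_eq_one
    have h1 : v (ξ - 1) ≤ ρ := by
      have h2 : ξ - 1 = (ζ - u - (ζ₀ - u)) / ζ₀ := by
        rw [hξ]; field_simp; ring
      rw [h2, map_div₀, hv0, div_one, sub_eq_add_neg]
      refine (hv _ _).trans (max_le h ?_)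
      rw [map_neg_eq_map]
      exact h₀
    have hfin : ξ ^ (g * g₀) = 1 := by
      rw [hξ, div_pow, pow_mul, hζ.pow_eq_one, one_pow, mul_comm g g₀, pow_mul, hζ₀.pow_eq_one, one_pow,
        div_one]
    have hord : 0 < orderOf ξ := by
      rw [orderOf_pos_iff]
      exact isOfFinOrder_iff_pow_eq_one.2 ⟨g * g₀, Nat.mul_pos hg hg₀, hfin⟩
    have h3 := hH ξ (orderOf ξ) hord (IsPrimitiveRoot.orderOf ξ) h1
    have h4 : ζ ^ (orderOf ξ * g₀) = 1 := by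
      have h5 : ζ = ξ * ζ₀ := by rw [hξ]; field_simp
      rw [h5, mul_pow, pow_mul, pow_orderOf_eq_one, one_pow, mul_comm (orderOf ξ) g₀, pow_mul,
        hζ₀.pow_eq_one, one_pow, one_mul]
    have h6 : g ∣ orderOf ξ * g₀ := hζ.dvd_of_pow_eq_one _ h4
    calc g ≤ orderOf ξ * g₀ := Nat.le_of_dvd (Nat.mul_pos hord hg₀) h6
      _ ≤ H * g₀ := Nat.mul_le_mul_right _ h3
      _ = g₀ * H := mul_comm _ _
  · refine ⟨0, fun ζ g hg hζ h => ?_⟩
    exact absurd ⟨ζ, g, hg, hζ, h⟩ hex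

end Pool.Agent.Helper20.ZD
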