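import Pool.Agent.Helper20.ZD.Rig
import Pool.Agent.Helper20.ZD.Near
import Pool.Agent.Helper20.ZD.Roots
import Pool.Agent.Helper20.ZD.Defs

/-! # Finite unions of discs near the cusp are isogeny-bounded -/

open UpperHalfPlane

namespace Pool.Agent.Helper20.ZD
open Pool.Agent.Helper11.ZP Pool.Agent.Helper11.ZU Pool.Agent.Helper20.ZT Pool.Agent.Helper20.ZT.Prim

variable {v : AbsoluteValue ℂ ℝ} {ρ : ℝ}

lemma v_disc (hv : IsNonarchimedean v) (hρ : ρ < 1) {c x : ℂ} (hc : 1 < v c) (hx : v (x - c) ≤ ρ * v c) :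
    v x = v c := by
  refine v_eq_of_sub_lt hv (hx.trans_lt ?_)
  have h0 : 0 < v c := zero_lt_one.trans hc
  nlinarith

/-- `x (x s - 1)` integral and `v x > 1`: then `x s` is close to one -/
lemma near_of_int {x w : ℂ} (hx : 1 < v x) (h : v (x * (w - 1)) ≤ 1) : v (w - 1) ≤ (v x)⁻¹ := by
  rw [map_mul] at h
  have h0 : 0 < v x := zero_lt_one.trans hx
  rw [inv_eq_one_div, le_div_iff₀ h0, mul_comm]
  exact h

lemma exp_reduce {c c' : ℂ} {n k : ℕ} (hn : 0 < n) (hk : 0 < k)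
    (h : v c ^ k = v c' ^ n) : ∃ e f : ℕ, 0 < e ∧ 0 < f ∧ Nat.Coprime e f ∧ v c ^ f = v c' ^ e := by
  have hg : 0 < Nat.gcd n k := Nat.gcd_pos_of_pos_left _ hn
  refine ⟨n / Nat.gcd n k, k / Nat.gcd n k, Nat.div_pos (Nat.le_of_dvd hn (Nat.gcd_dvd_left _ _)) hg,
    Nat.div_pos (Nat.le_of_dvd hk (Nat.gcd_dvd_right _ _)) hg, Nat.coprime_div_gcd_div_gcd hg, ?_⟩
  have h1 : (v c ^ (k / Nat.gcd n k)) ^ Nat.gcd n k = (v c' ^ (n / Nat.gcd n k)) ^ Nat.gcd n k := by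
    rw [← pow_mul, ← pow_mul, Nat.div_mul_cancel (Nat.gcd_dvd_right _ _),
      Nat.div_mul_cancel (Nat.gcd_dvd_left _ _), h]
  exact (pow_left_inj₀ (pow_nonneg (AbsoluteValue.nonneg v _) _) (pow_nonneg (AbsoluteValue.nonneg v _) _)
    hg.ne').1 h1

/-- **the shape of an isogeny between two discs** -/
theorem pair_shape (hv : IsNonarchimedean v) (hρ : ρ < 1) {c c' : ℂ} (hc : 1 < v c) (hc' : 1 < v c')
    {x y : ℂ} {N : ℕ} (hN : 0 < N) (hx : v (x - c) ≤ ρ * v c) (hy : v (y - c') ≤ ρ * v c')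
    (h : CyclicIsog N x y) : ∃ (e f g : ℕ) (ζ : ℂ), 0 < e ∧ 0 < f ∧ Nat.Coprime e f ∧ 0 < g ∧
      v c ^ f = v c' ^ e ∧ N = e * f * g ^ 2 ∧ IsPrimitiveRoot ζ g ∧
      v (ζ - c ^ f / c' ^ e) ≤ max ρ (max (v c)⁻¹ (v c')⁻¹) := by
  have hc0 : 0 < v c := zero_lt_one.trans hc
  have hc0' : 0 < v c' := zero_lt_one.trans hc'
  have hm : Fact (0 < (N : ℤ)) := ⟨by exact_mod_cast hN⟩
  have hvx := v_disc hv hρ hc hx
  have hvy := v_disc hv hρ hc' hy
  have hxO : x ∉ vring v hv := fun h => absurd (mem_vring.1 h) (by rw [hvx]; exact not_le.2 hc)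
  have hyO : y ∉ vring v hv := fun h => absurd (mem_vring.1 h) (by rw [hvy]; exact not_le.2 hc')
  have hrel := (cyclicIsog_iff hN).1 h
  obtain ⟨o, ho, t, ht0, h1, h2⟩ := primPoly_rigV (N : ℤ) ℂ (vring v hv) hxO hyO hrel
  have e1 : ph ℂ (zo (N : ℤ) o) = ((zo (N : ℤ) o : OO) : ℂ) := rfl
  rw [e1] at h2
  have h3 := near_of_int (by rw [hvx]; exact hc) (mem_vring.1 h1)
  have h4 := near_of_int (by rw [hvy]; exact hc') (mem_vring.1 h2)
  rw [hvx] at h3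
  rw [hvy] at h4
  set n := (N : ℤ).toNat with hn
  set k := ko (N : ℤ) o with hk
  have h5 : v c ^ k = v c' ^ n := by
    have hlt : (v c)⁻¹ < 1 := inv_lt_one_of_one_lt₀ hc
    have hlt' : (v c')⁻¹ < 1 := inv_lt_one_of_one_lt₀ hc'
    have h5 := v_one_of_near hv (h3.trans_lt hlt)
    have h6 := v_one_of_near hv (h4.trans_lt hlt')
    obtain ⟨N', hN', hz⟩ := zo_pow (N : ℤ) o
    have vz : v ((zo (N : ℤ) o : OO) : ℂ) = 1 := by
      have h7 : v ((zo (N : ℤ) o : OO) : ℂ) ^ N' = 1 := by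
        rw [← map_pow]
        have h8 := congrArg (Subtype.val : OO → ℂ) hz
        rw [show (((zo (N : ℤ) o : OO) : ℂ)) ^ N' = 1 by simpa using h8, map_one]
      exact (pow_eq_one_iff_of_nonneg (AbsoluteValue.nonneg v _) hN'.ne').1 h7
    rw [map_mul, map_pow, hvx] at h5
    rw [map_mul, map_mul, map_pow, vz, one_mul, hvy] at h6
    have h7 : v c ^ k * v t ^ (n * k) = 1 := by rw [pow_mul, ← mul_pow, h5, one_pow]
    have h8 : v c' ^ n * v t ^ (n * k) = 1 := by rw [mul_comm n k, pow_mul, ← mul_pow, h6, one_pow]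
    have h9 : v t ^ (n * k) ≠ 0 := pow_ne_zero _ ((AbsoluteValue.ne_zero_iff v).2 ht0)
    exact mul_right_cancel₀ h9 (h7.trans h8.symm)
  obtain ⟨e, f, he, hf, hcop, hef⟩ := exp_reduce (mtoNat_pos (N : ℤ)) (ko_pos (N : ℤ) o) h5
  set ρ' := max ρ (max (v c)⁻¹ (v c')⁻¹) with hρ'
  have hρ1 : ρ' < 1 := max_lt hρ (max_lt (inv_lt_one_of_one_lt₀ hc) (inv_lt_one_of_one_lt₀ hc'))
  set u : ℂ := c ^ f / c' ^ e with hu
  have hc00 : c ≠ 0 := (AbsoluteValue.pos_iff v).1 hc0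
  have hc00' : c' ≠ 0 := (AbsoluteValue.pos_iff v).1 hc0'
  have vu : v u = 1 := by
    rw [hu, map_div₀, map_pow, map_pow, hef]
    exact div_self (pow_pos hc0' _).ne'
  have hnN : n = N := Int.toNat_natCast N
  have hnf : n * f = k * e := by
    have h6 : v c ^ (n * f) = v c ^ (k * e) := by
      calc v c ^ (n * f) = (v c ^ f) ^ n := by rw [mul_comm, pow_mul]
        _ = (v c' ^ n) ^ e := by rw [hef, ← pow_mul, ← pow_mul, mul_comm]
        _ = v c ^ (k * e) := by rw [← h5, ← pow_mul]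
    exact pow_right_injective₀ hc0 hc.ne' h6
  obtain ⟨g, hg, hgm, -, hroot⟩ := TP_rootG (N : ℤ) ho he hnf
  have hcop' := hcop
  rw [Nat.Coprime] at hcop'
  rw [hcop', Nat.div_one] at hroot
  rw [hcop'] at hgm
  set z : ℂ := ((zo (N : ℤ) o : OO) : ℂ) with hz
  have hz0 : z ≠ 0 := by
    intro h0
    rw [h0, zero_pow he.ne'] at hroot
    have := hroot.pow_eq_one
    rw [zero_pow hg.ne'] at this
    exact zero_ne_one this
  have hxc : v (x / c - 1) ≤ ρ' := by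
    have h6 : x / c - 1 = (x - c) / c := by field_simp
    rw [h6, map_div₀, div_le_iff₀ hc0]
    exact hx.trans (mul_le_mul_of_nonneg_right (le_max_left _ _) hc0.le)
  have hyc : v (y / c' - 1) ≤ ρ' := by
    have h6 : y / c' - 1 = (y - c') / c' := by field_simp
    rw [h6, map_div₀, div_le_iff₀ hc0']
    exact hy.trans (mul_le_mul_of_nonneg_right (le_max_left _ _) hc0'.le)
  have hA : v (x * t ^ n - 1) ≤ ρ' := h3.trans ((le_max_left _ _).trans (le_max_right _ _))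
  have hB : v (y * (z * t ^ k) - 1) ≤ ρ' := h4.trans ((le_max_right _ _).trans (le_max_right _ _))
  have hx0 : x ≠ 0 := by
    rintro rfl
    rw [zero_mul, zero_sub, v_neg, map_one] at hA
    exact absurd hA (not_le.2 hρ1)
  have hy0 : y ≠ 0 := by
    rintro rfl
    rw [zero_mul, zero_sub, v_neg, map_one] at hB
    exact absurd hB (not_le.2 hρ1)
  have key : z ^ e = u * ((x / c) ^ f * ((y / c') ^ e)⁻¹ * ((y * (z * t ^ k)) ^ e * ((x * t ^ n) ^ f)⁻¹)) := by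
    have h6 : (t ^ k) ^ e = (t ^ n) ^ f := by rw [← pow_mul, ← pow_mul, hnf]
    have htf : (t ^ n) ^ f ≠ 0 := pow_ne_zero _ (pow_ne_zero _ ht0)
    rw [hu, mul_pow, mul_pow, mul_pow, h6, div_pow, div_pow]
    field_simp
  have hnear : v (z ^ e - u) ≤ ρ' := by
    have h6 := near_mul hv hρ1 (near_mul hv hρ1 (near_pow hv hρ1 hxc f) (near_inv hv hρ1 (near_pow hv hρ1 hyc e)))
      (near_mul hv hρ1 (near_pow hv hρ1 hB e) (near_inv hv hρ1 (near_pow hv hρ1 hA f)))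
    have h7 : z ^ e - u = u * (((x / c) ^ f * ((y / c') ^ e)⁻¹ * ((y * (z * t ^ k)) ^ e * ((x * t ^ n) ^ f)⁻¹)) - 1) := by
      rw [mul_sub, mul_one, ← key]
    rw [h7, map_mul, vu, one_mul]
    exact h6
  refine ⟨e, f, g, z ^ e, he, hf, hcop, hg, hef, ?_, hroot, hnear⟩
  have h9 : (N : ℤ) * ((1 : ℕ) : ℤ) ^ 2 = e * f * g ^ 2 := hgm
  rw [Nat.cast_one, one_pow, mul_one] at h9
  exact_mod_cast h9

/-- the exponents are determined by the two discs -/
lemma exp_unique {c c' : ℂ} (hc : 1 < v c) {e f e' f' : ℕ} (hcop : Nat.Coprime e f)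
    (hcop' : Nat.Coprime e' f') (h : v c ^ f = v c' ^ e) (h' : v c ^ f' = v c' ^ e') : e = e' ∧ f = f' := by
  have hc0 : 0 < v c := zero_lt_one.trans hc
  have h1 : v c ^ (f * e') = v c ^ (f' * e) := by
    rw [pow_mul, h, pow_mul, h', ← pow_mul, ← pow_mul, mul_comm]
  have h2 : f * e' = f' * e := pow_right_injective₀ hc0 hc.ne' h1
  have h3 : e ∣ e' := hcop.dvd_of_dvd_mul_left (by rw [h2]; exact dvd_mul_left _ _)
  have h4 : e' ∣ e := hcop'.dvd_of_dvd_mul_left (by rw [← h2]; exact dvd_mul_left _ _)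
  have h5 : e = e' := Nat.dvd_antisymm h3 h4
  have h6 : f ∣ f' := hcop.symm.dvd_of_dvd_mul_right (by rw [← h2]; exact dvd_mul_right _ _)
  have h7 : f' ∣ f := hcop'.symm.dvd_of_dvd_mul_right (by rw [h2]; exact dvd_mul_right _ _)
  exact ⟨h5, Nat.dvd_antisymm h6 h7⟩

/-- **the degrees of the isogenies between two discs are bounded** -/
theorem pair_bound (hv : IsNonarchimedean v) (hρ : ρ < 1) {c c' : ℂ} (hc : 1 < v c) (hc' : 1 < v c') :
    ∃ M : ℕ, ∀ (x y : ℂ) (N : ℕ), v (x - c) ≤ ρ * v c → v (y - c') ≤ ρ * v c' → CyclicIsog N x y →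
      N ≤ M := by
  by_cases hex : ∃ e f : ℕ, Nat.Coprime e f ∧ v c ^ f = v c' ^ e
  · obtain ⟨e, f, hcop, hef⟩ := hex
    have hρ1 : max ρ (max (v c)⁻¹ (v c')⁻¹) < 1 :=
      max_lt hρ (max_lt (inv_lt_one_of_one_lt₀ hc) (inv_lt_one_of_one_lt₀ hc'))
    obtain ⟨G, hG⟩ := root_bound v hv hρ1 (c ^ f / c' ^ e)
    refine ⟨e * f * G ^ 2, fun x y N hx hy h => ?_⟩
    rcases Nat.eq_zero_or_pos N with h0 | hN
    · rw [h0]; exact Nat.zero_le _
    obtain ⟨e', f', g, ζ, -, -, h1, h2, h3, h4, h5, h6⟩ := pair_shape hv hρ hc hc' hN hx hy h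
    obtain ⟨rfl, rfl⟩ := exp_unique hc hcop h1 hef h3
    rw [h4]
    exact Nat.mul_le_mul_left _ (Nat.pow_le_pow_left (hG ζ g h2 h5 h6) 2)
  · refine ⟨0, fun x y N hx hy h => ?_⟩
    by_contra hcon
    have hN : 0 < N := by omega
    obtain ⟨e', f', g, ζ, -, -, h1, -, h3, -⟩ := pair_shape hv hρ hc hc' hN hx hy h
    exact hex ⟨e', f', h1, h3⟩

/-- **finite unions of discs near the cusp are isogeny-bounded** -/
theorem isogenyBounded_discs (hv : IsNonarchimedean v) (hρ : ρ < 1) {F : Finset ℂ}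
    (hF : ∀ c ∈ F, 1 < v c) : IsogenyBounded (discs v F ρ) := by
  classical
  constructor
  · rintro x ⟨c, hc, hx⟩ hsp
    have h1 : x ∈ vring v hv := mem_of_isIntegral_int _ hsp.isIntegral
    rw [mem_vring, v_disc hv hρ (hF c hc) hx] at h1
    exact absurd h1 (not_le.2 (hF c hc))
  · have hM : ∀ p : F × F, ∃ M : ℕ, ∀ (x y : ℂ) (N : ℕ), v (x - p.1) ≤ ρ * v p.1 →
        v (y - p.2) ≤ ρ * v p.2 → CyclicIsog N x y → N ≤ M :=
      fun p => pair_bound hv hρ (hF _ p.1.2) (hF _ p.2.2)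
    choose M hM using hM
    refine ⟨∑ p, M p, ?_⟩
    rintro x ⟨c, hc, hx⟩ y ⟨c', hc', hy⟩ N h
    exact (hM (⟨c, hc⟩, ⟨c', hc'⟩) x y N hx hy h).trans
      (Finset.single_le_sum (f := M) (fun _ _ => Nat.zero_le _) (Finset.mem_univ _))

end Pool.Agent.Helper20.ZD
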