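import Pool.Agent.Helper20.ZD.Spec

/-! # Isogeny-bounded sets: atypical subvarieties lie in finitely many special hypersurfaces -/

open UpperHalfPlane MvPolynomial Finset

namespace Pool.Agent.Helper20.ZD
open Pool.Agent.Helper11.ZP Pool.Agent.Helper11.ZU Pool.Agent.Helper20.ZT Pool.Agent.Helper20.ZT.Prim

/-- a point isogenous to a special point is special -/
theorem special_of_rel {m : ℤ} [hm : Fact (0 < m)] {x y : ℂ} (hx : IsSpecialPoint x)
    (h : (primPoly m).eval₂ (evO x) y = 0) : IsSpecialPoint y := by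
  obtain ⟨τ, a, b, c, ha, hq, rfl⟩ := hx
  obtain ⟨o, -, rfl⟩ := primPoly_zero m τ h
  set σ : ℍ := toGL hm.out (U m o) • τ with hσ
  have hA := U00 m o
  have hD := d_pos (U m o) (U10 m o) (U00 m o)
  set A := (U m o).1 0 0 with hAdef
  set B := (U m o).1 0 1 with hBdef
  set D := (U m o).1 1 1 with hDdef
  have hs : (D : ℂ) * (σ : ℂ) = A * (τ : ℂ) + B := by
    have h1 : (σ : ℂ) = (A * (τ : ℂ) + B) / D := by
      rw [hσ, coe_smul_of_det_pos (det_toGL_pos hm.out (U m o)), num, denom, toGL_val, toGL_val, toGL_val,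
        toGL_val, U10]
      simp [hAdef, hBdef, hDdef]
    have hD0 : (D : ℂ) ≠ 0 := by exact_mod_cast hD.ne'
    rw [h1]
    field_simp
  refine ⟨σ, a * D ^ 2, b * A * D - 2 * a * D * B, a * B ^ 2 - b * A * B + c * A ^ 2,
    mul_ne_zero ha (pow_ne_zero _ hD.ne'), ?_, rfl⟩
  push_cast
  have e1 : (D : ℂ) * (σ : ℂ) - B = A * (τ : ℂ) := by rw [hs]; ring
  have e2 : ((a * D ^ 2 : ℂ)) * (σ : ℂ) ^ 2 + (b * A * D - 2 * a * D * B) * (σ : ℂ) +
      (a * B ^ 2 - b * A * B + c * A ^ 2) = a * ((D : ℂ) * (σ : ℂ) - B) ^ 2 + b * A * ((D : ℂ) * (σ : ℂ) - B) +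
        c * A ^ 2 := by ring
  rw [e2, e1]
  linear_combination (A : ℂ) ^ 2 * hq

variable {n : ℕ}

/-- two coordinates in a class are related by a fixed cyclic isogeny -/
theorem class_isog (S : SpecialData n) {i j : Fin n} {s : Fin S.r} (hi : S.cls i = some s)
    (hj : S.cls j = some s) : ∃ N : ℕ, 0 < N ∧ ∀ z ∈ S.carrier, CyclicIsog N (z i) (z j) := by
  obtain ⟨m, hm, h⟩ := special_rel S hj hi
  obtain ⟨N, hN⟩ := Int.eq_ofNat_of_zero_le hm.out.le
  subst hN
  have hN0 : 0 < N := by exact_mod_cast hm.out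
  exact ⟨N, hN0, fun z hz => (cyclicIsog_iff hN0).2 (h z hz)⟩

theorem special_of_class (S : SpecialData n) {i j : Fin n} {s : Fin S.r} (hi : S.cls i = some s)
    (hj : S.cls j = some s) {z : Fin n → ℂ} (hz : z ∈ S.carrier) (h : IsSpecialPoint (z i)) :
    IsSpecialPoint (z j) := by
  obtain ⟨m, hm, h1⟩ := special_rel S hj hi
  exact special_of_rel h (h1 z hz)

lemma vars_hypPoly {N : ℕ} (hN : 0 < N) (i j : Fin n) : (hypPoly N hN i j).vars ⊆ {i, j} := by
  classical
  have hm : Fact (0 < (N : ℤ)) := ⟨by exact_mod_cast hN⟩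
  have key : ∀ P : Polynomial (Polynomial OO), (P.eval₂ (Polynomial.eval₂RingHom
      ((C : ℂ →+* MvPolynomial (Fin n) ℂ).comp (algebraMap OO ℂ)) (X i)) (X j)) ∈
        MvPolynomial.supported ℂ ({i, j} : Set (Fin n)) := by
    intro P
    have hi : (X i : MvPolynomial (Fin n) ℂ) ∈ MvPolynomial.supported ℂ ({i, j} : Set (Fin n)) :=
      X_mem_supported.2 (by simp)
    have hj : (X j : MvPolynomial (Fin n) ℂ) ∈ MvPolynomial.supported ℂ ({i, j} : Set (Fin n)) :=
      X_mem_supported.2 (by simp)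
    rw [Polynomial.eval₂_eq_sum, Polynomial.sum_def]
    refine Subalgebra.sum_mem _ fun k _ => Subalgebra.mul_mem _ ?_ (Subalgebra.pow_mem _ hj k)
    rw [Polynomial.coe_eval₂RingHom, Polynomial.eval₂_eq_sum, Polynomial.sum_def]
    refine Subalgebra.sum_mem _ fun l _ => Subalgebra.mul_mem _ ?_ (Subalgebra.pow_mem _ hi l)
    exact Subalgebra.algebraMap_mem _ _
  have h1 := key (primPoly (N : ℤ))
  rw [MvPolynomial.mem_supported] at h1
  intro k hk
  have h2 := h1 (Finset.mem_coe.2 hk)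
  simpa using h2

/-- **the classes of special coordinates**: a point of `A` at which the coordinates of `dim A` classes
are special -/
theorem exists_special_classes {A : Set (Fin n → ℂ)} (hA : IsSubvariety A) (S : SpecialData n)
    (hAS : A ⊆ S.carrier) : ∃ (x : Fin n → ℂ) (B : Finset (Fin S.r)), x ∈ A ∧ B.card = dim A ∧
      ∀ i s, S.cls i = some s → s ∈ B → IsSpecialPoint (x i) := by
  classical
  obtain ⟨E, hE, hind, x, hx, hxE⟩ := exists_spec hA infinite_special
  have hne : ∀ i : E, ∃ s, S.cls i.1 = some s := by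
    rintro ⟨i, hi⟩
    rcases h : S.cls i with _ | s
    · exfalso
      have h0 : (X i - C (S.c i) : MvPolynomial (Fin n) ℂ) ≠ 0 := by
        intro h0
        have h1 := congrArg (eval fun _ => S.c i + 1) h0
        simp at h1
      obtain ⟨y, hy, hy0⟩ := hind _ h0 (by
        refine (vars_sub_subset _).trans ?_
        rw [vars_X, vars_C, union_empty]
        simpa using hi)
      apply hy0
      rw [map_sub, eval_X, eval_C, (hAS hy).1 i h, sub_self]
    · exact ⟨s, rfl⟩
  choose s hs using hne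
  have hinj : Function.Injective s := by
    intro i j hij
    by_contra hne
    have hne' : i.1 ≠ j.1 := fun h => hne (Subtype.ext h)
    obtain ⟨N, hN, h⟩ := class_isog S (hs i) (by rw [hij]; exact hs j)
    obtain ⟨y, hy, hy0⟩ := hind _ (hypPoly_ne_zero hN hne') ((vars_hypPoly hN _ _).trans (by
      intro k hk
      rw [mem_insert, mem_singleton] at hk
      rcases hk with rfl | rfl
      · exact i.2
      · exact j.2))
    exact hy0 ((eval_hypPoly hN _ _ _).2 (h y (hAS hy)))
  refine ⟨x, univ.image s, hx, ?_, ?_⟩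
  · rw [card_image_of_injective _ hinj, card_univ, Fintype.card_coe, hE]
  · intro i t hi ht
    obtain ⟨e, -, rfl⟩ := mem_image.1 ht
    exact special_of_class S (hs e) hi (hAS hx) (hxE e.1 e.2)

/-- **the key statement**: `A` lies on a special subvariety `S` of too small dimension; then two
coordinates in a class of `S` are in `Δ` at some point of `A` -/
theorem exists_pair_of_atMost {Δ : Set ℂ} (hΔ : ∀ x ∈ Δ, ¬ IsSpecialPoint x) {d : ℕ}
    {A : Set (Fin n → ℂ)} (hA : IsSubvariety A) (hAΔ : AtMost d Δ A) (S : SpecialData n)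
    (hAS : A ⊆ S.carrier) (hd : d + S.r < dim A + n) :
    ∃ (x : Fin n → ℂ) (i j : Fin n) (s : Fin S.r), x ∈ A ∧ i ≠ j ∧ S.cls i = some s ∧ S.cls j = some s ∧
      x i ∈ Δ ∧ x j ∈ Δ := by
  classical
  obtain ⟨x, B, hx, hB, hspec⟩ := exists_special_classes hA S hAS
  set J : Finset (Fin n) := univ.filter fun i => x i ∉ Δ with hJ
  set I : Finset (Fin n) := univ.filter fun i => x i ∈ Δ with hI
  have hJd : J.card ≤ d := hAΔ x hx J fun i hi => (mem_filter.1 hi).2
  have hIJ : I.card + J.card = n := by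
    have := Finset.card_filter_add_card_filter_not (s := (univ : Finset (Fin n))) (fun i => x i ∈ Δ)
    rw [card_univ, Fintype.card_fin] at this
    exact this
  have hcls : ∀ i ∈ I, ∃ s, s ∉ B ∧ S.cls i = some s := by
    intro i hi
    have hi' := (mem_filter.1 hi).2
    rcases h : S.cls i with _ | s
    · exfalso
      apply hΔ _ hi'
      rw [(hAS hx).1 i h]
      exact S.hc i h
    · exact ⟨s, fun hs => hΔ _ hi' (hspec i s h hs), rfl⟩
  have hBr : B.card ≤ S.r := by
    have := card_le_univ B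
    rwa [Fintype.card_fin] at this
  have hlt : (univ \ B).card < I.card := by
    rw [card_sdiff_of_subset (subset_univ _), card_univ, Fintype.card_fin]
    omega
  have hf : ∀ i : I, ∃ s, s ∉ B ∧ S.cls i.1 = some s := fun i => hcls i.1 i.2
  choose f hfB hf using hf
  obtain ⟨i, -, j, -, hij, hfij⟩ := Finset.exists_ne_map_eq_of_card_lt_of_maps_to (s := (univ : Finset I))
    (t := univ \ B) (by rw [card_univ, Fintype.card_coe]; exact hlt)
    (f := f) (fun i _ => mem_coe.2 (mem_sdiff.2 ⟨mem_univ _, hfB i⟩))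
  exact ⟨x, i.1, j.1, f i, hx, fun h => hij (Subtype.ext h), hf i, by rw [hfij]; exact hf j,
    (mem_filter.1 i.2).2, (mem_filter.1 j.2).2⟩

/-- **special subvarieties with unlikely intersections lie in finitely many special hypersurfaces** -/
theorem cover {Δ : Set ℂ} (hΔ : IsogenyBounded Δ) : ∃ M : ℕ, ∀ {n d : ℕ} {V : Set (Fin n → ℂ)},
    AtMost d Δ V → ∀ (S : SpecialData n) (A : Set (Fin n → ℂ)), IsSubvariety A → A ⊆ V ∩ S.carrier →
      d + dim S.carrier < dim A + n → ∃ (i j : Fin n) (N : ℕ), i ≠ j ∧ 0 < N ∧ N ≤ M ∧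
        ∀ x ∈ S.carrier, CyclicIsog N (x i) (x j) := by
  obtain ⟨M, hM⟩ := hΔ.bounded
  refine ⟨M, fun {n d V} hV S A hA hAVS hd => ?_⟩
  have hr := S.le_dim
  obtain ⟨x, i, j, s, hx, hij, hi, hj, hxi, hxj⟩ := exists_pair_of_atMost hΔ.special hA
    (fun y hy => hV y (hAVS hy).1) S (fun y hy => (hAVS hy).2) (by omega)
  obtain ⟨N, hN, h⟩ := class_isog S hi hj
  exact ⟨i, j, N, hij, hN, hM _ hxi _ hxj _ (h x (hAVS hx).2), h⟩

end Pool.Agent.Helper20.ZD
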