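import Pool.Agent.Helper20.ZD.Main
import Pool.Agent.Helper20.ZD.Bdd
import Pool.Agent.Helper36.ZU.Final

/-! # Isogeny-free sets: Zilber–Pink in all dimensions -/

open UpperHalfPlane MvPolynomial Finset

namespace Pool.Agent.Helper20.ZD
open Pool.Agent.Helper11.ZP Pool.Agent.Helper11.ZU Pool.Agent.Helper20.ZT Pool.Agent.Helper20.ZT.Prim
open Pool.Agent.Helper36.ZU (Del ncl diagData diagData_carrier dim_del_le IsDiagAtypical closed_inter
  finite_diag exists_component finite_components zeroLocus_sup' zeroLocus_del delIdeal isComponent_iff)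

variable {n : ℕ}

/-- `Δ` is isogeny-free: it contains no special point, and there is no cyclic isogeny of degree
greater than one between its elements -/
structure IsogenyFree (Δ : Set ℂ) : Prop where
  special : ∀ x ∈ Δ, ¬ IsSpecialPoint x
  free : ∀ x ∈ Δ, ∀ y ∈ Δ, ∀ N : ℕ, CyclicIsog N x y → N ≤ 1

/-- a root of unity close to one is one -/
lemma root_eq_one {v : AbsoluteValue ℂ ℝ} (hv : IsNonarchimedean v) {σ : ℝ}
    (hσ : ∀ p : ℕ, p.Prime → σ ^ (p - 1) < v (p : ℂ)) {ζ : ℂ} {g : ℕ} (hg : 0 < g)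
    (hζ : IsPrimitiveRoot ζ g) (h : v (ζ - 1) ≤ σ) : g = 1 := by
  by_contra hcon
  obtain ⟨p, hp, m, hm⟩ := Nat.exists_prime_and_dvd hcon
  have h1 : IsPrimitiveRoot (ζ ^ m) (p ^ (0 + 1)) := by
    rw [zero_add, pow_one]
    exact hζ.pow hg (by rw [hm, mul_comm])
  have h2 := val_prime_le hv hp h1
  rw [zero_add, pow_one, Nat.totient_prime hp] at h2
  have h3 : v (ζ ^ m - 1) ≤ σ := (val_pow_sub_one hv (val_root hg hζ.pow_eq_one).le m).trans h
  exact absurd (h2.trans (pow_le_pow_left₀ (AbsoluteValue.nonneg v _) h3 _)) (not_le.2 (hσ p hp))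

/-- **small discs near the cusp are isogeny-free** -/
theorem isogenyFree_disc {v : AbsoluteValue ℂ ℝ} (hv : IsNonarchimedean v) {c : ℂ} (hc : 1 < v c) {ρ : ℝ}
    (hρ : ρ < 1) (h : ∀ p : ℕ, p.Prime → max ρ (v c)⁻¹ ^ (p - 1) < v (p : ℂ)) :
    IsogenyFree {x | v (x - c) ≤ ρ * v c} := by
  have hc0 : c ≠ 0 := (AbsoluteValue.pos_iff v).1 (zero_lt_one.trans hc)
  constructor
  · intro x hx hsp
    have h1 : x ∈ vring v hv := mem_of_isIntegral_int _ hsp.isIntegral
    rw [mem_vring, v_disc hv hρ hc hx] at h1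
    exact absurd h1 (not_le.2 hc)
  · intro x hx y hy N hxy
    rcases Nat.eq_zero_or_pos N with h0 | hN
    · rw [h0]; exact Nat.zero_le _
    obtain ⟨e, f, g, ζ, -, -, h1, h2, h3, h4, h5, h6⟩ := pair_shape hv hρ hc hc hN hx hy hxy
    obtain ⟨rfl, rfl⟩ := exp_unique hc (Nat.coprime_one_right 1) h1 rfl h3
    rw [div_self (pow_ne_zero _ hc0), max_self] at h6
    have hg := root_eq_one hv h h2 h5 h6
    rw [h4, hg]
    norm_num

/-- the hereditary form of `AtMost`, along the diagonals: for every component `B` of positive dimension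
at most `e = dim V + dim D - n` of the intersection of `V` with a diagonal `D`, at most `e` of the
different coordinates of a point of `B` are not in `Δ` -/
def HerDiag (Δ : Set ℂ) (V : Set (Fin n → ℂ)) : Prop :=
  ∀ (π : Fin n → Fin n) (B : Set (Fin n → ℂ)), IsComponent B (V ∩ Del π) → 0 < dim B →
    dim B + n ≤ dim V + ncl π → ∀ x ∈ B, ∀ J : Finset (Fin n),
      (∀ i ∈ J, ∀ j ∈ J, π i = π j → i = j) → (∀ i ∈ J, x i ∉ Δ) → J.card + n ≤ dim V + ncl π

/-- a subvariety with a coordinate which is not constant has positive dimension -/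
lemma pos_dim_of_nonconst {A : Set (Fin n → ℂ)} (hA : IsSubvariety A) {i : Fin n}
    (hi : ∀ c : ℂ, ∃ x ∈ A, x i ≠ c) : 0 < dim A := by
  classical
  set B := MvPolynomial (Fin n) ℂ ⧸ vanishingIdeal ℂ A with hB
  have hind : AlgebraicIndependent ℂ (fun _ : Fin 1 =>
      Ideal.Quotient.mk (vanishingIdeal ℂ A) (X i)) := by
    rw [algebraicIndependent_iff]
    intro q hq
    by_contra hq0
    have h1 : (aeval (fun _ : Fin 1 => Ideal.Quotient.mk (vanishingIdeal ℂ A) (X i)) :
        MvPolynomial (Fin 1) ℂ →ₐ[ℂ] B) q =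
        Ideal.Quotient.mk (vanishingIdeal ℂ A) (rename (fun _ : Fin 1 => i) q) := by
      have h2 : (aeval (fun _ : Fin 1 => Ideal.Quotient.mk (vanishingIdeal ℂ A) (X i)) :
        MvPolynomial (Fin 1) ℂ →ₐ[ℂ] B) =
        (Ideal.Quotient.mkₐ ℂ (vanishingIdeal ℂ A)).comp (rename fun _ : Fin 1 => i) := by
        apply MvPolynomial.algHom_ext
        intro i
        simp
      rw [h2]
      rfl
    rw [h1, Ideal.Quotient.eq_zero_iff_mem] at hq
    have hinj : Function.Injective (fun _ : Fin 1 => i) := fun a b _ => Subsingleton.elim a b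
    obtain ⟨x, hx, hx2⟩ := transc_of_nonconst hA hi (f := rename (fun _ : Fin 1 => i) q)
      (fun h => hq0 (rename_injective _ hinj (by rw [h, map_zero])))
      ((vars_rename _ _).trans (by
        intro k hk
        rw [mem_image] at hk
        obtain ⟨_, -, rfl⟩ := hk
        exact mem_singleton_self _))
    exact hx2 (mem_van.1 hq x hx)
  have h1 := hind.lift_cardinalMk_le_trdeg
  simp only [Cardinal.mk_fintype, Fintype.card_fin, Cardinal.lift_id] at h1
  have h2 : Algebra.trdeg ℂ B < Cardinal.aleph0 := trdeg_lt_aleph0_of_finiteType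
  have h3 := Cardinal.toNat_le_toNat h1 h2
  rw [Cardinal.toNat_natCast] at h3
  exact Nat.lt_of_lt_of_le one_pos h3

/-- a subvariety of dimension zero is a point -/
lemma eq_of_dim_zero {A B : Set (Fin n → ℂ)} (hA : IsSubvariety A) (hB : IsSubvariety B) (h : dim B = 0)
    (hAB : A ⊆ B) : A = B := by
  have hconst : ∀ i : Fin n, ∃ c : ℂ, ∀ x ∈ B, x i = c := by
    intro i
    by_contra hcon
    push Not at hcon
    have := pos_dim_of_nonconst hB hcon
    omega
  choose c hc using hconst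
  refine Set.Subset.antisymm hAB fun x hx => ?_
  obtain ⟨y, hy⟩ := nonempty_of_isSubvariety hA
  have : x = y := funext fun i => by rw [hc i x hx, hc i y (hAB hy)]
  rwa [this]

/-- every atypical subvariety of a curve is contained in a maximal one -/
theorem exists_max_curve {C : Set (Fin n → ℂ)} (hC : IsSubvariety C) (h1 : dim C = 1)
    {A : Set (Fin n → ℂ)} (hA : IsAtypical C A) :
    ∃ A', (IsAtypical C A' ∧ ∀ B, IsAtypical C B → A' ⊆ B → B = A') ∧ A ⊆ A' := by
  have hsub : ∀ B, IsAtypical C B → IsSubvariety B ∧ B ⊆ C := by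
    rintro B ⟨S, ⟨hB, hBS, -⟩, -⟩
    exact ⟨hB, fun z hz => (hBS hz).1⟩
  by_cases hCC : IsAtypical C C
  · exact ⟨C, ⟨hCC, fun B hB hCB => Set.Subset.antisymm (hsub B hB).2 hCB⟩, (hsub A hA).2⟩
  · refine ⟨A, ⟨hA, fun B hB hAB => ?_⟩, le_rfl⟩
    have hne : B ≠ C := fun h => hCC (h ▸ hB)
    have h0 := dim_of_finite (finite_of_ssubset hC h1.le (hsub B hB).1 (hsub B hB).2 hne)
    exact (eq_of_dim_zero (hsub A hA).1 (hsub B hB).1 h0 hAB).symm

/-- **every atypical subvariety is contained in a diagonal one** -/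
theorem diag_cover {Δ : Set ℂ} (hΔ : IsogenyFree Δ) {V : Set (Fin n → ℂ)} (hV : IsSubvariety V)
    (hH : HerDiag Δ V) {A : Set (Fin n → ℂ)} (hA : IsAtypical V A) :
    ∃ B, (∃ π, IsComponent B (V ∩ Del π)) ∧ IsAtypical V B ∧ A ⊆ B := by
  classical
  have hA' := hA
  obtain ⟨S, ⟨hAs, hAVS, hAmax⟩, hlt⟩ := hA
  -- the partition
  let r : Setoid (Fin n) :=
    { r := fun i j => ∀ y ∈ A, y i = y j
      iseqv := ⟨fun i _ _ => rfl, fun h y hy => (h y hy).symm, fun h h' y hy => (h y hy).trans (h' y hy)⟩ }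
  set π : Fin n → Fin n := fun i => (Quotient.mk r i).out with hπdef
  have hout : ∀ i, ∀ y ∈ A, y (π i) = y i := fun i => Quotient.mk_out (s := r) i
  have hπ : ∀ i j, π i = π j ↔ ∀ y ∈ A, y i = y j := by
    intro i j
    constructor
    · intro h y hy
      rw [← hout i y hy, ← hout j y hy, h]
    · intro h
      have h1 : Quotient.mk r i = Quotient.mk r j := Quotient.sound h
      simp only [hπdef, h1]
  have hππ : ∀ i, π (π i) = π i := fun i => (hπ _ _).2 (hout i)
  -- the component
  obtain ⟨I, hI⟩ := closed_inter hV π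
  obtain ⟨B, hB, hAB⟩ := exists_component (I := I) hAs (by
    rw [← hI]
    exact fun z hz => ⟨(hAVS hz).1, fun i j hij => (hπ i j).1 hij z hz⟩)
  rw [← hI] at hB
  refine ⟨B, ⟨π, hB⟩, ?_, hAB⟩
  rcases Nat.eq_zero_or_pos (dim B) with h0 | hpos
  · rw [← eq_of_dim_zero hAs hB.1 h0 hAB]
    exact hA'
  · refine ⟨diagData π, by rw [diagData_carrier]; exact hB, ?_⟩
    rw [diagData_carrier]
    have hdel := dim_del_le π
    by_contra hcon
    have hexp : dim B + n ≤ dim V + ncl π := by omega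
    obtain ⟨x, T, hx, hT, hspec⟩ := exists_special_classes hAs S fun y hy => (hAVS hy).2
    set R : Finset (Fin n) := univ.image π with hR
    set J : Finset (Fin n) := R.filter fun i => x i ∉ Δ with hJ
    set K : Finset (Fin n) := R.filter fun i => x i ∈ Δ with hK
    have hRπ : ∀ i ∈ R, π i = i := by
      intro i hi
      obtain ⟨k, -, rfl⟩ := mem_image.1 hi
      exact hππ k
    have hJcard := hH π B hB hpos hexp x (hAB hx) J (fun i hi j hj hij => by
      rw [← hRπ i (mem_filter.1 hi).1, ← hRπ j (mem_filter.1 hj).1, hij]) fun i hi => (mem_filter.1 hi).2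
    have hJK : K.card + J.card = ncl π :=
      Finset.card_filter_add_card_filter_not (s := R) (fun i => x i ∈ Δ)
    have hcls : ∀ i : K, ∃ s, s ∉ T ∧ S.cls i.1 = some s := by
      rintro ⟨i, hi⟩
      have hi' := (mem_filter.1 hi).2
      rcases h : S.cls i with _ | s
      · exfalso
        apply hΔ.special _ hi'
        rw [(hAVS hx).2.1 i h]
        exact S.hc i h
      · exact ⟨s, fun hs => hΔ.special _ hi' (hspec i s h hs), rfl⟩
    choose f hfT hf using hcls
    have hinj : Function.Injective f := by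
      intro i j hij
      obtain ⟨N, hN, h⟩ := class_isog S (hf i) (by rw [hij]; exact hf j)
      have hN1 : N = 1 := by
        have := hΔ.free _ (mem_filter.1 i.2).2 _ (mem_filter.1 j.2).2 N (h x (hAVS hx).2)
        omega
      subst hN1
      have heq : ∀ y ∈ A, y i.1 = y j.1 := by
        intro y hy
        obtain ⟨τ, τ', h1, h2, h3⟩ := h y (hAVS hy).2
        have : τ' = τ := by
          ext
          rw [h1]
          push_cast
          ring
        rw [h2, h3, this]
      have h1 := (hπ _ _).2 heq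
      rw [hRπ _ (mem_filter.1 i.2).1, hRπ _ (mem_filter.1 j.2).1] at h1
      exact Subtype.ext h1
    have hKcard : K.card ≤ (univ \ T).card := by
      have h1 : (univ.image f).card ≤ (univ \ T).card := card_le_card fun s hs => by
        obtain ⟨i, -, rfl⟩ := mem_image.1 hs
        exact mem_sdiff.2 ⟨mem_univ _, hfT i⟩
      rwa [card_image_of_injective _ hinj, card_univ, Fintype.card_coe] at h1
    have hTr : T.card ≤ S.r := by
      have := card_le_univ T
      rwa [Fintype.card_fin] at this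
    rw [card_sdiff_of_subset (subset_univ _), card_univ, Fintype.card_fin] at hKcard
    have hr := S.le_dim
    omega

/-- **Zilber–Pink in all dimensions** -/
theorem zp_diag {Δ : Set ℂ} (hΔ : IsogenyFree Δ) {V : Set (Fin n → ℂ)} (hV : IsSubvariety V)
    (hH : HerDiag Δ V) : {A | IsAtypical V A ∧ ∀ B, IsAtypical V B → A ⊆ B → B = A}.Finite ∧
      ∀ A, IsAtypical V A → ∃ A', (IsAtypical V A' ∧ ∀ B, IsAtypical V B → A' ⊆ B → B = A') ∧ A ⊆ A' := by
  have hfin : {B | (∃ π, IsComponent B (V ∩ Del π)) ∧ IsAtypical V B}.Finite :=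
    (finite_diag hV).subset fun B hB => hB.1
  constructor
  · refine hfin.subset ?_
    rintro A ⟨hA, hmax⟩
    obtain ⟨B, h1, h2, h3⟩ := diag_cover hΔ hV hH hA
    rw [← hmax B h2 h3]
    exact ⟨h1, h2⟩
  · intro A hA
    obtain ⟨B, h1, h2, h3⟩ := diag_cover hΔ hV hH hA
    obtain ⟨B', h4, h5⟩ := hfin.exists_le_maximal (show B ∈ {B | (∃ π, IsComponent B (V ∩ Del π)) ∧ IsAtypical V B} from ⟨h1, h2⟩)
    refine ⟨B', ⟨h5.1.2, fun C hC hBC => ?_⟩, h3.trans h4⟩
    obtain ⟨C', h6, h7, h8⟩ := diag_cover hΔ hV hH hC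
    have h9 := h5.2 (show C' ∈ {B | (∃ π, IsComponent B (V ∩ Del π)) ∧ IsAtypical V B} from ⟨h6, h7⟩) (hBC.trans h8)
    exact Set.Subset.antisymm (h8.trans h9) hBC

end Pool.Agent.Helper20.ZD
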