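import Pool.Agent.Helper69.ZD.Master
import Pool.Agent.Helper20.ZD.Diag

/-! # Unlikely intersections excluded by several places: sets depending on the coordinate -/

open MvPolynomial Finset

namespace Pool.Agent.Helper20.ZD.Local
open Pool.Agent.Helper11.ZP Pool.Agent.Helper11.ZU Pool.Agent.Helper20.ZT Pool.Agent.Helper20.ZT.Prim
  Pool.Agent.Helper20.ZD

variable {n : ℕ}

/-- the degrees of the cyclic isogenies between elements of the sets `Δ_i`, `i ∈ J`, and elements of the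
other sets are bounded, and the sets `Δ_i`, `i ∈ J`, contain no special points -/
structure Bounded (J : Finset (Fin n)) (Δ : Fin n → Set ℂ) : Prop where
  special : ∀ i ∈ J, ∀ x ∈ Δ i, ¬ IsSpecialPoint x
  bounded : ∃ M : ℕ, ∀ i ∈ J, ∀ j, j ≠ i → ∀ x ∈ Δ i, ∀ y ∈ Δ j, ∀ N : ℕ, CyclicIsog N y x → N ≤ M

/-- at most `d` coordinates of a point of `V` are not in their set `Δ_i` -/
def AtMostC (d : ℕ) (Δ : Fin n → Set ℂ) (V : Set (Fin n → ℂ)) : Prop :=
  ∀ x ∈ V, ∀ T : Finset (Fin n), (∀ i ∈ T, x i ∉ Δ i) → T.card ≤ d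

/-- the local condition -/
def Locally (d : ℕ) (V : Set (Fin n → ℂ)) : Prop :=
  ∀ J : Finset (Fin n), J.card = d + 1 → ∃ Δ : Fin n → Set ℂ, Bounded J Δ ∧ AtMostC d Δ V

/-- **the key statement** -/
theorem exists_pair {J : Finset (Fin n)} {Δ : Fin n → Set ℂ} (hΔ : Bounded J Δ)
    {d : ℕ} {S : SpecialData n} {x : Fin n → ℂ} {B : Finset (Fin S.r)}
    (hxS : x ∈ S.carrier) (hspec : ∀ i s, S.cls i = some s → s ∈ B → IsSpecialPoint (x i))
    (hJT : ∀ T : Finset (Fin n), T.card ≤ d →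
      (∀ i ∈ J, i ∉ T → ∃ s, s ∉ B ∧ S.cls i = some s) →
        ∃ (i j : Fin n) (s : Fin S.r), i ∈ J ∧ i ≠ j ∧ i ∉ T ∧ j ∉ T ∧ S.cls i = some s ∧ S.cls j = some s)
    (hx : ∀ T : Finset (Fin n), (∀ i ∈ T, x i ∉ Δ i) → T.card ≤ d) :
    ∃ (i j : Fin n) (s : Fin S.r), i ∈ J ∧ j ≠ i ∧ S.cls i = some s ∧ S.cls j = some s ∧
      x i ∈ Δ i ∧ x j ∈ Δ j := by
  classical
  set T : Finset (Fin n) := univ.filter fun i => x i ∉ Δ i with hT
  have hTd : T.card ≤ d := hx T fun i hi => (mem_filter.1 hi).2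
  have hmem : ∀ i, i ∉ T → x i ∈ Δ i := by
    intro i hi
    by_contra hcon
    exact hi (mem_filter.2 ⟨mem_univ _, hcon⟩)
  obtain ⟨i, j, s, hiJ, hij, hiT, hjT, hi, hj⟩ := hJT T hTd (by
    intro i hi hiT
    have hxi := hmem i hiT
    rcases h : S.cls i with _ | s
    · exfalso
      apply hΔ.special i hi _ hxi
      rw [hxS.1 i h]
      exact S.hc i h
    · exact ⟨s, fun hs => hΔ.special i hi _ hxi (hspec i s h hs), rfl⟩)
  exact ⟨i, j, s, hiJ, hij.symm, hi, hj, hmem i hiT, hmem j hjT⟩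

/-- **special subvarieties with unlikely intersections lie in finitely many special hypersurfaces** -/
theorem cover {d : ℕ} {V : Set (Fin n → ℂ)} (hV : Locally d V) :
    ∃ M : ℕ, ∀ (S : SpecialData n) (A : Set (Fin n → ℂ)), IsSubvariety A → A ⊆ V ∩ S.carrier →
      d + dim S.carrier < dim A + n → ∃ (i j : Fin n) (N : ℕ), i ≠ j ∧ 0 < N ∧ N ≤ M ∧
        ∀ x ∈ S.carrier, CyclicIsog N (x i) (x j) := by
  classical
  choose Δ hΔ hA using hV
  choose M hM using fun J hJ => (hΔ J hJ).bounded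
  let 𝒥 : Finset (Finset (Fin n)) := Finset.univ.filter fun J => J.card = d + 1
  have hmem : ∀ J, J ∈ 𝒥 → J.card = d + 1 := fun J hJ => (Finset.mem_filter.1 hJ).2
  refine ⟨𝒥.attach.sup fun J => M J.1 (hmem J.1 J.2), fun S A hAv hAVS hd => ?_⟩
  have hr := S.le_dim
  obtain ⟨x, B, hx, hB, hspec⟩ := exists_special_classes hAv S fun y hy => (hAVS hy).2
  obtain ⟨J, hJ, hJT⟩ := comb S.cls S.surj B (d := d) (by rw [hB]; omega)
  obtain ⟨i, j, s, hiJ, hij, hi, hj, hxi, hxj⟩ := exists_pair (hΔ J hJ)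
    (hAVS hx).2 hspec hJT (hA J hJ x (hAVS hx).1)
  obtain ⟨N, hN, h⟩ := class_isog S hj hi
  refine ⟨j, i, N, hij, hN, (hM J hJ i hiJ j hij _ hxi _ hxj _ (h x (hAVS hx).2)).trans ?_, h⟩
  exact Finset.le_sup (f := fun J : 𝒥 => M J.1 (hmem J.1 J.2))
    (mem_attach 𝒥 ⟨J, mem_filter.2 ⟨mem_univ _, hJ⟩⟩)

/-- **the atypical subvarieties are not dense** -/
theorem notDense {V : Set (Fin n → ℂ)} (hV : IsSubvariety V) (hVΔ : Locally (dim V) V)
    (hVS : ∀ S : SpecialData n, dim S.carrier < n → ¬ V ⊆ S.carrier) : AtypicalNotDense V := by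
  obtain ⟨M, hM⟩ := cover hVΔ
  refine ⟨levelPoly n M, ?_, ?_⟩
  · by_contra hcon
    push Not at hcon
    obtain ⟨i, j, N, hij, hN, -, h⟩ := exists_of_levelPoly (M := M) hV (mem_van.2 hcon)
    exact hVS _ (dim_hypData hN hij) fun x hx => (mem_hypData hN hij x).2 (h x hx)
  · rintro A ⟨S, ⟨hA, hAVS, -⟩, hlt⟩ x hx
    obtain ⟨i, j, N, hij, hN, hNM, h⟩ := hM S A hA hAVS hlt
    exact eval_levelPoly hij hN hNM (h x (hAVS hx).2)

/-- **Zilber–Pink for curves** -/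
theorem zp_curve {C : Set (Fin n → ℂ)} (hC : IsSubvariety C) (h1 : dim C = 1) (hCΔ : Locally 1 C) :
    {A | IsAtypical C A ∧ ∀ B, IsAtypical C B → A ⊆ B → B = A}.Finite ∧
      ∀ A, IsAtypical C A → ∃ B, (IsAtypical C B ∧ ∀ B', IsAtypical C B' → B ⊆ B' → B' = B) ∧ A ⊆ B :=
  ⟨finite_max hC h1 fun hCS => notDense hC (by rwa [h1]) hCS, fun _ hA => exists_max_curve hC h1 hA⟩

/-- the condition of several places -/
theorem of_locallyAtMost {d : ℕ} {V : Set (Fin n → ℂ)} (h : Pool.Agent.Helper69.ZD.LocallyAtMost d V) :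
    Locally d V := by
  classical
  intro J hJ
  obtain ⟨Δ, Ω, hΔ, hΩ, hA⟩ := h J hJ
  obtain ⟨M, hM⟩ := hΔ.bounded
  refine ⟨fun i => if i ∈ J then Δ else Δ ∪ Ω, ⟨fun i hi x hx => ?_, M, fun i hi j hij x hx y hy N hN => ?_⟩,
    fun x hx T hT => hA x hx T fun i hi => ?_⟩
  · rw [if_pos hi] at hx
    exact hΔ.special x hx
  · rw [if_pos hi] at hx
    have hy' : y ∈ Δ ∪ Ω := by
      split_ifs at hy with h1
      · exact Or.inl hy
      · exact hy
    rcases hy' with h1 | h1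
    · exact hM _ h1 _ hx N hN
    · rcases Nat.eq_zero_or_pos N with h0 | h0
      · rw [h0]; exact Nat.zero_le _
      · exact absurd hN (hΩ _ hx _ h1 N h0)
  · have h1 := hT i hi
    dsimp only at h1
    split_ifs at h1 with h2
    · exact ⟨h1, Or.inl h2⟩
    · exact ⟨fun h3 => h1 (Or.inl h3), Or.inr fun h3 => h1 (Or.inr h3)⟩

end Pool.Agent.Helper20.ZD.Local
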