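import Pool.Agent.Helper20.ZT.PrimRigG

/-! # Rigidity of Tate parameters: arbitrary points with bad reduction -/

open UpperHalfPlane ModularForm Complex Filter Function
open scoped Real MatrixGroups Topology Manifold

namespace Pool.Agent.Helper20.ZD
open Pool.Agent.Helper11.ZP Pool.Agent.Helper11.ZU Pool.Agent.Helper20.ZT Pool.Agent.Helper20.ZT.Prim

section core
variable {m : ℤ} [hm : Fact (0 < m)] {T : Finset (Orb m)} (hT : Stable m T)
variable {K : Type*} [Field K] [Algebra ℂ K] (O : ValuationSubring K)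

include hT in
/-- **rigidity over the orbits in `T`, arbitrary valuations** -/
theorem rig_coreV [IsAlgClosed K] {x y : K} (hx : x ∉ O) (hy : y ∉ O)
    (hrel : ∑ i ∈ Finset.range (T.card + 1), (ppT hT i).eval₂ (ph K) x * y ^ i = 0) :
    ∃ o ∈ T, ∃ t : K, t ≠ 0 ∧ x * (x * t ^ m.toNat - 1) ∈ O ∧
      y * (y * (ph K (zo m o) * t ^ ko m o) - 1) ∈ O := by
  have hx0 : x ≠ 0 := by rintro rfl; exact hx (zero_mem O)
  have hy0 : y ≠ 0 := by rintro rfl; exact hy (zero_mem O)
  set s := x⁻¹ with hs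
  set w := y⁻¹ with hw
  have hs0 : s ≠ 0 := inv_ne_zero hx0
  have hw0 : w ≠ 0 := inv_ne_zero hy0
  have vs1 : O.valuation s < 1 := by
    rw [hs, map_inv₀]
    exact inv_lt_one_of_one_lt₀ (not_le.1 fun h => hx ((val_mem O).2 h))
  have vw1 : O.valuation w < 1 := by
    rw [hw, map_inv₀]
    exact inv_lt_one_of_one_lt₀ (not_le.1 fun h => hy ((val_mem O).2 h))
  have hm' := mtoNat_pos m
  set n := m.toNat with hn
  set L := 2 * n ^ 2 + 3 * n with hL
  obtain ⟨q, hq, hqe⟩ := exists_param O (T.card * L) ((val_non O).2 vs1) hs0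
  have vq1 := (val_non O).1 hq
  have hqO : q ∈ O := (val_mem O).2 vq1.le
  obtain ⟨e, he, hE⟩ := tr_E O (T.card * L) hqO
  obtain ⟨d, hd, hD⟩ := tr_D O (T.card * L) hqO
  have m24 : (24 : K) ∈ O := by exact_mod_cast mem_ofNat O 24
  have m720 : (720 : K) ∈ O := by exact_mod_cast mem_ofNat O 720
  have m744 : (744 : K) ∈ O := by exact_mod_cast mem_ofNat O 744
  -- units
  have uE : ∀ r e : K, O.valuation r < 1 → e ∈ O → O.valuation (1 + 720 * r + r ^ 2 * e) = 1 := by
    intro r e hr he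
    have hrO : r ∈ O := (val_mem O).2 hr.le
    rw [show 1 + 720 * r + r ^ 2 * e = 1 + r * (720 + r * e) by ring]
    exact unit_of_sub O (lt_one_mul O hr (mem_add O m720 (mem_mul O hrO he)))
  have uD : ∀ r e : K, O.valuation r < 1 → e ∈ O → O.valuation (1 - 24 * r + r ^ 2 * e) = 1 := by
    intro r e hr he
    have hrO : r ∈ O := (val_mem O).2 hr.le
    rw [show 1 - 24 * r + r ^ 2 * e = 1 + r * (r * e - 24) by ring]
    exact unit_of_sub O (lt_one_mul O hr (mem_sub O (mem_mul O hrO he) m24))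
  have vE := uE q e vq1 he
  have vD := uD q d vq1 hd
  rw [hE, hD] at hqe
  have vq : O.valuation q = O.valuation s := by
    have h1 : q * (1 - 24 * q + q ^ 2 * d) = s * (1 + 720 * q + q ^ 2 * e) := by rw [← hqe]; ring
    have h2 := congrArg O.valuation h1
    rwa [val_mul_unit O vD, val_mul_unit O vE] at h2
  have vs0 : O.valuation s ≠ 0 := by rwa [ne_eq, Valuation.zero_iff]
  have hq0 : q ≠ 0 := by
    intro h
    rw [h, map_zero] at vq
    exact vs0 vq.symm
  obtain ⟨t, ht⟩ := IsAlgClosed.exists_pow_nat_eq q hm'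
  have ht0 : t ≠ 0 := by
    rintro rfl
    rw [zero_pow hm'.ne'] at ht
    exact hq0 ht.symm
  have vt1 : O.valuation t < 1 := by
    by_contra hcon
    push Not at hcon
    have h1 : 1 ≤ O.valuation t ^ n := one_le_pow₀ hcon
    rw [← map_pow, ht] at h1
    exact absurd vq1 (not_lt.2 h1)
  have vt0 : 0 < O.valuation t := zero_lt_iff.2 (by rwa [ne_eq, Valuation.zero_iff])
  have htO : t ∈ O := (val_mem O).2 vt1.le
  have hwO : w ∈ O := (val_mem O).2 vw1.le
  -- the product
  have hLz : (LHT hT (T.card * L + 3)).eval₂ (Polynomial.eval₂RingHom (ph K) t) w⁻¹ = 0 := by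
    apply LHT_zero hT (T.card * L + 3) (x := x)
    · rw [ht, hE, hD, hqe, hs]
      field_simp
    · rw [hw, inv_inv]; exact hrel
  have hsm := small_prodT hT O (T.card * L + 3) htO hwO hw0 hLz
  have hmono : ∀ {a b : ℕ}, a ≤ b → O.valuation t ^ b ≤ O.valuation t ^ a := fun h =>
    pow_le_pow_right_of_le_one' vt1.le h
  have hex : ∃ o ∈ T, O.valuation ((tr dS qexp_disc_mem 1 1 (T.card * L + 3)).eval₂ (ph K)
      (ph K (zo m o) * t ^ ko m o) - (tr eS qexp_Ecube_mem 1 1 (T.card * L + 3)).eval₂ (ph K)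
      (ph K (zo m o) * t ^ ko m o) * w) ≤ O.valuation t ^ L := by
    by_contra hcon
    push Not at hcon
    rcases T.eq_empty_or_nonempty with hem | hne
    · rw [hem, Finset.prod_empty, map_one] at hsm
      exact absurd (pow_lt_one₀ zero_le vt1 (by omega)) (not_lt.2 hsm)
    · have h1 := val_prod T _ (pow_pos vt0 L) hne (fun o ho => hcon o ho)
      rw [← map_prod, ← pow_mul, mul_comm] at h1
      exact absurd (hsm.trans (hmono (Nat.le_add_right _ _))) (not_le.2 h1)
  obtain ⟨o, hoT, ho⟩ := hex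
  set z := ph K (zo m o) with hz
  set k := ko m o with hk
  set r := z * t ^ k with hr
  have hkpos : 0 < k := ko_pos m o
  obtain ⟨N, hN, hzN⟩ := zo_pow m o
  have hzN' : z ^ N = 1 := by rw [hz, ← map_pow, hzN, map_one]
  have vz : O.valuation z = 1 := val_root_one O hN hzN'
  have hz0 : z ≠ 0 := by
    intro h
    rw [h, map_zero] at vz
    exact zero_ne_one vz
  have vr : O.valuation r = O.valuation t ^ k := by rw [hr, map_mul, vz, one_mul, map_pow]
  have vr1 : O.valuation r < 1 := by rw [vr]; exact pow_lt_one₀ zero_le vt1 hkpos.ne'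
  have hrO : r ∈ O := (val_mem O).2 vr1.le
  have hr0 : r ≠ 0 := by rw [hr]; exact mul_ne_zero hz0 (pow_ne_zero _ ht0)
  obtain ⟨e', he', hE'⟩ := tr_E O (T.card * L) hrO
  obtain ⟨d', hd', hD'⟩ := tr_D O (T.card * L) hrO
  have vE' := uE r e' vr1 he'
  have vD' := uD r d' vr1 hd'
  rw [hE', hD'] at ho
  set ε := (r - 24 * r ^ 2 + r ^ 3 * d') - (1 + 720 * r + r ^ 2 * e') * w with hε
  have hkle : k ≤ n ^ 2 := ko_le m o
  have hdiv : ∀ a b : K, a ∈ O → O.valuation b = 1 → a / b ∈ O := by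
    intro a b ha hb
    rw [val_mem, map_div₀, hb, div_one]
    exact (val_mem O).1 ha
  have hεr2 : ε / r ^ 2 ∈ O := by
    rw [val_mem, map_div₀, map_pow, vr, ← pow_mul]
    exact div_le_one_of_le₀ (ho.trans (hmono (by rw [hL]; omega))) zero_le
  have hDne : (1 - 24 * q + q ^ 2 * d) ≠ 0 := by
    intro h; rw [h, map_zero] at vD; exact zero_ne_one vD
  have hxq : x * (q * (1 - 24 * q + q ^ 2 * d)) = 1 + 720 * q + q ^ 2 * e := by
    rw [show q * (1 - 24 * q + q ^ 2 * d) = q - 24 * q ^ 2 + q ^ 3 * d by ring, hqe, hs]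
    field_simp
  refine ⟨o, hoT, t, ht0, ?_, ?_⟩
  · rw [ht]
    have hxqO : x * q ∈ O := by
      have h1 : x * q = (1 + 720 * q + q ^ 2 * e) / (1 - 24 * q + q ^ 2 * d) := by
        rw [eq_div_iff hDne, ← hxq]; ring
      rw [h1]
      exact hdiv _ _ ((val_mem O).2 vE.le) vD
    have h2 : x * (x * q - 1) = (x * q) * ((744 + q * e - q * d) / (1 - 24 * q + q ^ 2 * d)) := by
      rw [mul_div_assoc', eq_div_iff hDne]
      linear_combination x * hxq
    rw [h2]
    exact mem_mul O hxqO (hdiv _ _ (mem_sub O (mem_add O m744 (mem_mul O hqO he)) (mem_mul O hqO hd)) vD)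
  · have vB : O.valuation (1 - 24 * r + r ^ 2 * d' - r * (ε / r ^ 2)) = 1 := by
      rw [sub_eq_add_neg, val_add_of_lt O, vD']
      rw [vD', Valuation.map_neg]
      exact lt_one_mul O vr1 hεr2
    have hBne : (1 - 24 * r + r ^ 2 * d' - r * (ε / r ^ 2)) ≠ 0 := by
      intro h; rw [h, map_zero] at vB; exact zero_ne_one vB
    have hεr : r * (ε / r ^ 2) * r = ε := by field_simp
    have hyr : y * (r * (1 - 24 * r + r ^ 2 * d' - r * (ε / r ^ 2))) = 1 + 720 * r + r ^ 2 * e' := by
      have h1 : r * (1 - 24 * r + r ^ 2 * d' - r * (ε / r ^ 2)) = (1 + 720 * r + r ^ 2 * e') * w := by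
        have h2 : (1 + 720 * r + r ^ 2 * e') * w = (r - 24 * r ^ 2 + r ^ 3 * d') - ε := by rw [hε]; ring
        rw [h2]
        linear_combination -hεr
      rw [h1, hw]
      field_simp
    have hyrO : y * r ∈ O := by
      have h1 : y * r = (1 + 720 * r + r ^ 2 * e') / (1 - 24 * r + r ^ 2 * d' - r * (ε / r ^ 2)) := by
        rw [eq_div_iff hBne, ← hyr]; ring
      rw [h1]
      exact hdiv _ _ ((val_mem O).2 vE'.le) vB
    have h2 : y * (y * r - 1) = (y * r) * ((744 + r * e' - r * d' + ε / r ^ 2) /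
        (1 - 24 * r + r ^ 2 * d' - r * (ε / r ^ 2))) := by
      rw [mul_div_assoc', eq_div_iff hBne]
      linear_combination y * hyr
    rw [h2]
    exact mem_mul O hyrO (hdiv _ _ (mem_add O (mem_sub O (mem_add O m744 (mem_mul O hrO he'))
      (mem_mul O hrO hd')) hεr2) vB)

end core

/-- **rigidity for the primitive modular polynomial** -/
theorem primPoly_rigV (m : ℤ) [hm : Fact (0 < m)] (K : Type) [Field K] [IsAlgClosed K] [Algebra ℂ K]
    (O : ValuationSubring K) {x y : K} (hx : x ∉ O) (hy : y ∉ O)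
    (h : (primPoly m).eval₂ (Polynomial.eval₂RingHom ((algebraMap ℂ K).comp (algebraMap OO ℂ)) x) y = 0) :
    ∃ o ∈ TP m, ∃ t : K, t ≠ 0 ∧ x * (x * t ^ m.toNat - 1) ∈ O ∧
      y * (y * (ph K (zo m o) * t ^ ko m o) - 1) ∈ O :=
  rig_coreV (TP_stable m) O hx hy (primPoly_sum m h)

end Pool.Agent.Helper20.ZD
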