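import Pool.Agent.Helper20.ZD.Defs

/-! # Points of a subvariety with prescribed independent coordinates -/

open UpperHalfPlane MvPolynomial

namespace Pool.Agent.Helper20.ZD
open Pool.Agent.Helper11.ZP Pool.Agent.Helper11.ZU

/-- **lying over**: a surjection of `R` onto an algebraically closed field extends to a ring integral
over `R` -/
lemma exists_hom_ext {R C k : Type*} [CommRing R] [CommRing C] [IsDomain C] [Algebra R C]
    [Algebra.IsIntegral R C] (hinj : Function.Injective (algebraMap R C)) [Field k] [IsAlgClosed k]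
    (φ : R →+* k) (hφ : Function.Surjective φ) : ∃ ψ : C →+* k, ∀ r, ψ (algebraMap R C r) = φ r := by
  have hP : (RingHom.ker φ).IsPrime := RingHom.ker_isPrime φ
  obtain ⟨Q, hQ, hQP⟩ := Ideal.exists_ideal_over_prime_of_isIntegral_of_isDomain (S := C) (RingHom.ker φ)
    (by rw [(RingHom.injective_iff_ker_eq_bot _).1 hinj]; exact bot_le)
  let g : R →+* C ⧸ Q := (Ideal.Quotient.mk Q).comp (algebraMap R C)
  have hg : ∀ a, a ∈ RingHom.ker φ → g a = 0 := by
    intro a ha
    rw [← hQP] at ha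
    exact Ideal.Quotient.eq_zero_iff_mem.2 ha
  let e := RingHom.quotientKerEquivOfSurjective hφ
  let f : k →+* C ⧸ Q := (Ideal.Quotient.lift (RingHom.ker φ) g hg).comp e.symm.toRingHom
  have hf : ∀ r, f (φ r) = g r := by
    intro r
    have h1 : e.symm (φ r) = Ideal.Quotient.mk _ r := by
      rw [RingEquiv.symm_apply_eq]
      rfl
    change (Ideal.Quotient.lift (RingHom.ker φ) g hg) (e.symm (φ r)) = g r
    rw [h1]
    rfl
  have hfφ : f.comp φ = g := RingHom.ext hf
  have hgint : g.IsIntegral := RingHom.IsIntegral.trans _ _ (algebraMap_isIntegral_iff.2 inferInstance)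
    (RingHom.isIntegral_of_surjective _ Ideal.Quotient.mk_surjective)
  have hfint : f.IsIntegral := RingHom.IsIntegral.tower_top φ f (by rw [hfφ]; exact hgint)
  have hbij := IsAlgClosed.ringHom_bijective_of_isIntegral f hfint
  let E := RingEquiv.ofBijective f hbij
  refine ⟨E.symm.toRingHom.comp (Ideal.Quotient.mk Q), fun r => ?_⟩
  change E.symm (g r) = φ r
  rw [RingEquiv.symm_apply_eq]
  exact (hf r).symm

variable {n : ℕ}

/-- independence in the coordinate ring -/
lemma algebraicIndependent_of_indep {I : Ideal (MvPolynomial (Fin n) ℂ)} [hI : I.IsPrime]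
    {E : Finset (Fin n)}
    (hind : ∀ f : MvPolynomial (Fin n) ℂ, f ≠ 0 → f.vars ⊆ E → ∃ x ∈ zeroLocus ℂ I, eval x f ≠ 0) :
    AlgebraicIndependent ℂ (fun i : E => (Ideal.Quotient.mk I (X (i : Fin n)) : MvPolynomial (Fin n) ℂ ⧸ I)) := by
  classical
  have hvan : vanishingIdeal ℂ (zeroLocus ℂ I) = I := IsPrime.vanishingIdeal_zeroLocus I
  rw [algebraicIndependent_iff]
  intro q hq
  by_contra hq0
  obtain ⟨x, hx, hx2⟩ := hind (rename ((↑) : E → Fin n) q)
    (fun h => hq0 (rename_injective _ Subtype.val_injective (by rw [h, map_zero])))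
    (by
      intro i hi
      have h1 := vars_rename ((↑) : E → Fin n) q hi
      rw [Finset.mem_image] at h1
      obtain ⟨y, -, rfl⟩ := h1
      exact y.2)
  apply hx2
  have h0 : (aeval fun i => Ideal.Quotient.mk I (X i) : MvPolynomial (Fin n) ℂ →ₐ[ℂ] _) =
      Ideal.Quotient.mkₐ ℂ I := by
    apply MvPolynomial.algHom_ext
    intro i
    rw [aeval_X]
    rfl
  have h1 : Ideal.Quotient.mk I (rename ((↑) : E → Fin n) q) = 0 := by
    change Ideal.Quotient.mkₐ ℂ I (rename ((↑) : E → Fin n) q) = 0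
    rw [← h0, aeval_rename]
    exact hq
  rw [Ideal.Quotient.eq_zero_iff_mem, ← hvan] at h1
  have h5 := h1 x hx
  rwa [MvPolynomial.aeval_eq_eval] at h5

/-- a set of independent coordinates can be extended to a maximal one -/
theorem exists_basis_extend {A : Set (Fin n → ℂ)} (hA : IsSubvariety A) (E₀ : Finset (Fin n))
    (hE₀ : ∀ f : MvPolynomial (Fin n) ℂ, f ≠ 0 → f.vars ⊆ E₀ → ∃ x ∈ A, eval x f ≠ 0) :
    ∃ E : Finset (Fin n), E₀ ⊆ E ∧ E.card = dim A ∧
      ∀ f : MvPolynomial (Fin n) ℂ, f ≠ 0 → f.vars ⊆ E → ∃ x ∈ A, eval x f ≠ 0 := by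
  classical
  obtain ⟨I, hI, rfl⟩ := hA
  have hvan : vanishingIdeal ℂ (zeroLocus ℂ I) = I := IsPrime.vanishingIdeal_zeroLocus I
  have hmem : ∀ f : MvPolynomial (Fin n) ℂ, (∀ y ∈ zeroLocus ℂ I, eval y f = 0) → f ∈ I := by
    intro f hf
    rw [← hvan]
    exact fun y hy => by rw [MvPolynomial.aeval_eq_eval]; exact hf y hy
  let B := MvPolynomial (Fin n) ℂ ⧸ I
  let ξ : Fin n → B := fun i => Ideal.Quotient.mk I (X i)
  have hadj : Algebra.adjoin ℂ (Set.range ξ) = ⊤ := by
    have h1 : (Ideal.Quotient.mkₐ ℂ I).range = ⊤ :=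
      AlgHom.range_eq_top _ |>.2 (Ideal.Quotient.mkₐ_surjective ℂ I)
    rw [← h1, ← Algebra.map_top, ← MvPolynomial.adjoin_range_X, AlgHom.map_adjoin, ← Set.range_comp]
    rfl
  have halg : Algebra.IsAlgebraic (Algebra.adjoin ℂ (Set.range ξ)) B := by
    refine ⟨fun b => ?_⟩
    have hb : b ∈ Algebra.adjoin ℂ (Set.range ξ) := by rw [hadj]; trivial
    exact isAlgebraic_algebraMap (⟨b, hb⟩ : Algebra.adjoin ℂ (Set.range ξ))
  have hind : AlgebraicIndependent ℂ (fun i : E₀ => ξ i) := algebraicIndependent_of_indep hE₀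
  have hinjE : ∀ i ∈ E₀, ∀ j ∈ E₀, ξ i = ξ j → i = j := by
    intro i hi j hj h
    have h1 := hind.injective (a₁ := ⟨i, hi⟩) (a₂ := ⟨j, hj⟩) h
    exact congrArg Subtype.val h1
  have hs : AlgebraicIndepOn ℂ id (Set.range fun i : E₀ => ξ i) := hind.to_subtype_range
  obtain ⟨t, hst, ht, hbas⟩ := exists_isTranscendenceBasis_between (R := ℂ)
    (Set.range fun i : E₀ => ξ i) (Set.range ξ) (by
      rintro _ ⟨i, rfl⟩
      exact ⟨i, rfl⟩) hs
  have hdim : dim (zeroLocus ℂ I) = Nat.card t := by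
    rw [dim, hvan, ← hbas.cardinalMk_eq_trdeg]
    rfl
  have htfin : Finite t := ((Set.finite_range ξ).subset ht).to_subtype
  have : Fintype t := Fintype.ofFinite t
  have hidx : ∀ y : t, ∃ i : Fin n, ξ i = y ∧ ((y : B) ∈ (Set.range fun i : E₀ => ξ i) → i ∈ E₀) := by
    intro y
    by_cases hy : (y : B) ∈ (Set.range fun i : E₀ => ξ i)
    · obtain ⟨i, hi⟩ := hy
      exact ⟨i, hi, fun _ => i.2⟩
    · obtain ⟨i, hi⟩ := ht y.2
      exact ⟨i, hi, fun h => absurd h hy⟩
  choose idx hidx hidx0 using hidx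
  have hidxinj : Function.Injective idx := by
    intro y y' h
    apply Subtype.ext
    rw [← hidx y, ← hidx y', h]
  have hmk : ∀ f : MvPolynomial (Fin n) ℂ, aeval ξ f = Ideal.Quotient.mk I f := by
    intro f
    have h1 : (aeval ξ : MvPolynomial (Fin n) ℂ →ₐ[ℂ] B) = Ideal.Quotient.mkₐ ℂ I := by
      apply MvPolynomial.algHom_ext
      intro i
      rw [aeval_X]
      rfl
    rw [h1]
    rfl
  refine ⟨Finset.univ.image idx, ?_, ?_, ?_⟩
  · intro i hi
    have hit : ξ i ∈ t := hst ⟨⟨i, hi⟩, rfl⟩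
    rw [Finset.mem_image]
    refine ⟨⟨ξ i, hit⟩, Finset.mem_univ _, ?_⟩
    exact hinjE _ (hidx0 ⟨ξ i, hit⟩ ⟨⟨i, hi⟩, rfl⟩) i hi (hidx _)
  · rw [Finset.card_image_of_injective _ hidxinj, Finset.card_univ, hdim, Nat.card_eq_fintype_card]
  · intro f hf0 hfE
    by_contra hcon
    push Not at hcon
    have hfI := hmem f hcon
    obtain ⟨q, rfl⟩ := exists_rename_eq_of_vars_subset_range f idx hidxinj (by
      intro i hi
      have h1 := hfE hi
      rw [Finset.mem_image] at h1
      obtain ⟨y, -, hy⟩ := h1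
      exact ⟨y, hy⟩)
    have h1 : aeval ξ (rename idx q) = 0 := by
      rw [hmk]
      exact Ideal.Quotient.eq_zero_iff_mem.2 hfI
    rw [aeval_rename] at h1
    have h2 : (ξ ∘ idx) = ((↑) : t → B) := funext hidx
    rw [h2] at h1
    have h3 := hbas.1
    rw [algebraicIndependent_iff] at h3
    have h4 := h3 q h1
    rw [h4, map_zero] at hf0
    exact hf0 rfl

/-- a set of independent coordinates -/
theorem exists_basis {A : Set (Fin n → ℂ)} (hA : IsSubvariety A) :
    ∃ E : Finset (Fin n), E.card = dim A ∧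
      ∀ f : MvPolynomial (Fin n) ℂ, f ≠ 0 → f.vars ⊆ E → ∃ x ∈ A, eval x f ≠ 0 := by
  obtain ⟨E, -, h1, h2⟩ := exists_basis_extend hA ∅ (by
    intro f hf hfE
    obtain ⟨I, hI, rfl⟩ := hA
    have hvan : vanishingIdeal ℂ (zeroLocus ℂ I) = I := IsPrime.vanishingIdeal_zeroLocus I
    by_contra hcon
    push Not at hcon
    have h0 : f ∈ I := by
      rw [← hvan]
      exact fun y hy => by rw [MvPolynomial.aeval_eq_eval]; exact hcon y hy
    have h1 : f.vars = ∅ := Finset.subset_empty.1 hfE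
    rw [vars_eq_empty_iff_eq_C] at h1
    have h2 : f.coeff 0 ≠ 0 := by
      intro h3
      rw [h3, map_zero] at h1
      exact hf h1
    apply hI.ne_top
    rw [Ideal.eq_top_iff_one]
    have h3 : (1 : MvPolynomial (Fin n) ℂ) = C (f.coeff 0)⁻¹ * f := by
      conv_rhs => rw [h1]
      rw [coeff_C, if_pos rfl, ← C_mul, inv_mul_cancel₀ h2, C_1]
    rw [h3]
    exact I.mul_mem_left _ h0)
  exact ⟨E, h1, h2⟩

/-- **points with prescribed independent coordinates**: if `dim A` coordinates are algebraically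
independent on `A`, then the points of `A` whose coordinates in `E` lie in a given infinite set are
Zariski dense in `A` -/
theorem exists_spec_dense {A : Set (Fin n → ℂ)} (hA : IsSubvariety A) {D : Set ℂ} (hD : D.Infinite)
    (E : Finset (Fin n)) (hE : E.card = dim A)
    (hind : ∀ f : MvPolynomial (Fin n) ℂ, f ≠ 0 → f.vars ⊆ E → ∃ x ∈ A, eval x f ≠ 0)
    {F : MvPolynomial (Fin n) ℂ} (hF : ∃ x ∈ A, eval x F ≠ 0) :
    ∃ x ∈ A, eval x F ≠ 0 ∧ ∀ i ∈ E, x i ∈ D := by
  classical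
  obtain ⟨I, hI, rfl⟩ := hA
  have hvan : vanishingIdeal ℂ (zeroLocus ℂ I) = I := IsPrime.vanishingIdeal_zeroLocus I
  -- the coordinate ring
  let B := MvPolynomial (Fin n) ℂ ⧸ I
  let ξ : Fin n → B := fun i => Ideal.Quotient.mk I (X i)
  have hmk : ∀ f : MvPolynomial (Fin n) ℂ, aeval ξ f = Ideal.Quotient.mk I f := by
    intro f
    have h1 : (aeval ξ : MvPolynomial (Fin n) ℂ →ₐ[ℂ] B) = Ideal.Quotient.mkₐ ℂ I := by
      apply MvPolynomial.algHom_ext
      intro i
      rw [aeval_X]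
      rfl
    rw [h1]
    rfl
  let ξE : E → B := fun i => ξ i
  have hindE : AlgebraicIndependent ℂ ξE := by
    rw [algebraicIndependent_iff]
    intro q hq
    by_contra hq0
    obtain ⟨x, hx, hx2⟩ := hind (rename ((↑) : E → Fin n) q)
      (fun h => hq0 (rename_injective _ Subtype.val_injective (by rw [h, map_zero])))
      (by
        intro i hi
        have h1 := vars_rename ((↑) : E → Fin n) q hi
        rw [Finset.mem_image] at h1
        obtain ⟨y, -, rfl⟩ := h1
        exact y.2)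
    apply hx2
    have h1 : aeval ξ (rename ((↑) : E → Fin n) q) = 0 := by
      rw [aeval_rename]
      exact hq
    rw [hmk, Ideal.Quotient.eq_zero_iff_mem, ← hvan] at h1
    have h5 := h1 x hx
    rwa [MvPolynomial.aeval_eq_eval] at h5
  have hfin : Algebra.trdeg ℂ B < Cardinal.aleph0 := trdeg_lt_aleph0_of_finiteType
  have htr : Algebra.trdeg ℂ B = (E.card : Cardinal) := by
    rw [hE, dim, hvan, Cardinal.cast_toNat_of_lt_aleph0 hfin]
  have hbas : IsTranscendenceBasis ℂ ξE := by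
    refine hindE.isTranscendenceBasis_of_trdeg_le_of_finite ?_
    rw [htr]
    simp
  -- the base ring
  let R₀ := Algebra.adjoin ℂ (Set.range ξE)
  have hBalg : Algebra.IsAlgebraic R₀ B := hbas.isAlgebraic
  have hF0 : Ideal.Quotient.mk I F ≠ 0 := by
    intro h
    rw [Ideal.Quotient.eq_zero_iff_mem, ← hvan] at h
    obtain ⟨x, hx, hx2⟩ := hF
    have h5 := h x hx
    rw [MvPolynomial.aeval_eq_eval] at h5
    exact hx2 h5
  obtain ⟨r, hr0, hr⟩ := (hBalg.isAlgebraic (Ideal.Quotient.mk I F)).exists_nonzero_dvd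
    (mem_nonZeroDivisors_of_ne_zero hF0)
  choose hh hh0 hhint using fun i : Fin n => (hBalg.isAlgebraic (ξ i)).exists_integral_multiple
  obtain ⟨h, hhdef⟩ : ∃ h : R₀, h = r * ∏ i, hh i := ⟨_, rfl⟩
  have hne : h ≠ 0 := by
    rw [hhdef]
    exact mul_ne_zero hr0 (Finset.prod_ne_zero_iff.2 fun i _ => hh0 i)
  -- the evaluation
  let e := hbas.1.aevalEquiv
  have he : ∀ q : MvPolynomial E ℂ, ((e q : R₀) : B) = aeval ξE q :=
    fun q => hbas.1.algebraMap_aevalEquiv q
  obtain ⟨w, hw, hw2⟩ : ∃ w : E → ℂ, (∀ y, w y ∈ D) ∧ eval w (e.symm h) ≠ 0 := by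
    by_contra hcon
    push Not at hcon
    have h1 : e.symm h = 0 := by
      apply funext_set (fun _ : E => D) (fun _ => hD)
      intro x hx
      rw [map_zero]
      exact hcon x fun y => hx y (Set.mem_univ _)
    apply hne
    have h2 := congrArg e h1
    rwa [AlgEquiv.apply_symm_apply, map_zero] at h2
  let φ : R₀ →+* ℂ := (eval w).comp (e.symm : R₀ →+* MvPolynomial E ℂ)
  have hφC : ∀ c : ℂ, φ (algebraMap ℂ R₀ c) = c := by
    intro c
    change eval w (e.symm (algebraMap ℂ R₀ c)) = c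
    rw [AlgEquiv.commutes, algebraMap_eq, eval_C]
  have hφh : φ h ≠ 0 := hw2
  -- the integral closure
  let C₁ := integralClosure R₀ B
  have hinj : Function.Injective (algebraMap R₀ C₁) := by
    intro a b hab
    have h1 := congrArg (algebraMap C₁ B) hab
    rw [← IsScalarTower.algebraMap_apply, ← IsScalarTower.algebraMap_apply] at h1
    exact Subtype.ext h1
  obtain ⟨ψ, hψ⟩ := exists_hom_ext (C := C₁) hinj φ fun c => ⟨_, hφC c⟩
  have hint : ∀ i, IsIntegral R₀ ((h : B) * ξ i) := by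
    intro i
    have h1 : (h : B) * ξ i = ((r * ∏ j ∈ Finset.univ.erase i, hh j : R₀) : B) * (hh i • ξ i) := by
      rw [hhdef, ← Finset.mul_prod_erase Finset.univ hh (Finset.mem_univ i)]
      change _ = _ * ((hh i : B) * ξ i)
      push_cast
      ring
    rw [h1]
    exact (isIntegral_algebraMap (x := (r * ∏ j ∈ Finset.univ.erase i, hh j : R₀))).mul (hhint i)
  let u : Fin n → C₁ := fun i => ⟨(h : B) * ξ i, hint i⟩
  let x : Fin n → ℂ := fun i => ψ (u i) / φ h
  have hkey : ∀ f : MvPolynomial (Fin n) ℂ, ∃ (k : ℕ) (c : C₁), (c : B) = (h : B) ^ k * aeval ξ f ∧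
      ψ c = φ h ^ k * eval x f := by
    intro f
    induction f using MvPolynomial.induction_on with
    | C a =>
      refine ⟨0, algebraMap R₀ C₁ (algebraMap ℂ R₀ a), ?_, ?_⟩
      · rw [pow_zero, one_mul, aeval_C]
        rfl
      · rw [pow_zero, one_mul, eval_C, hψ, hφC]
    | add f g hf hg =>
      obtain ⟨k, c, h1, h2⟩ := hf
      obtain ⟨l, d, h3, h4⟩ := hg
      refine ⟨k + l, algebraMap R₀ C₁ (h ^ l) * c + algebraMap R₀ C₁ (h ^ k) * d, ?_, ?_⟩
      · have h5 : ((algebraMap R₀ C₁ (h ^ l) * c + algebraMap R₀ C₁ (h ^ k) * d : C₁) : B) =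
            (h : B) ^ l * c + (h : B) ^ k * d := rfl
        rw [h5, h1, h3, map_add]
        ring
      · rw [map_add, map_mul, map_mul, hψ, hψ, h2, h4, map_add, map_pow, map_pow]
        ring
    | mul_X f i hf =>
      obtain ⟨k, c, h1, h2⟩ := hf
      refine ⟨k + 1, c * u i, ?_, ?_⟩
      · have h5 : ((c * u i : C₁) : B) = (c : B) * ((h : B) * ξ i) := rfl
        rw [h5, h1, map_mul, aeval_X]
        ring
      · rw [map_mul, h2, map_mul, eval_X]
        change _ * ψ (u i) = _ * (_ * (ψ (u i) / φ h))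
        have h6 : ψ (u i) / φ h * φ h = ψ (u i) := div_mul_cancel₀ _ hφh
        rw [pow_succ]
        linear_combination -(φ h ^ k * eval x f) * h6
  have hx0 : ∀ f ∈ I, eval x f = 0 := by
    intro f hf
    obtain ⟨k, c, h1, h2⟩ := hkey f
    rw [hmk, Ideal.Quotient.eq_zero_iff_mem.2 hf, mul_zero] at h1
    have h3 : c = 0 := Subtype.ext h1
    rw [h3, map_zero] at h2
    exact (mul_eq_zero.1 h2.symm).resolve_left (pow_ne_zero _ hφh)
  refine ⟨x, fun f hf => by rw [MvPolynomial.aeval_eq_eval]; exact hx0 f hf, ?_, ?_⟩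
  · obtain ⟨b, hb⟩ := hr
    obtain ⟨g, rfl⟩ := Ideal.Quotient.mk_surjective b
    have hFg : aeval ξ (F * g) = (r : B) := by
      rw [hmk, map_mul]
      exact hb.symm
    obtain ⟨k, c, h1, h2⟩ := hkey (F * g)
    have h3 : c = algebraMap R₀ C₁ (h ^ k * r) := by
      apply Subtype.ext
      rw [h1, hFg]
      rfl
    rw [h3, hψ, map_mul, map_pow, map_mul] at h2
    intro h4
    rw [h4, zero_mul, mul_zero] at h2
    have hφr : φ r ≠ 0 := by
      intro h5
      apply hφh
      rw [hhdef, map_mul, h5, zero_mul]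
    exact (mul_ne_zero (pow_ne_zero _ hφh) hφr) h2
  · intro i hi
    have h1 : u i = algebraMap R₀ C₁ (h * e (X ⟨i, hi⟩)) := by
      apply Subtype.ext
      change (h : B) * ξ i = (h : B) * ((e (X ⟨i, hi⟩) : R₀) : B)
      rw [he, aeval_X]
    have h2 : x i = w ⟨i, hi⟩ := by
      change ψ (u i) / φ h = w ⟨i, hi⟩
      rw [h1, hψ, map_mul]
      have h3 : φ (e (X ⟨i, hi⟩)) = w ⟨i, hi⟩ := by
        change eval w (e.symm (e (X ⟨i, hi⟩))) = w ⟨i, hi⟩
        rw [AlgEquiv.symm_apply_apply, eval_X]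
      rw [h3]
      field_simp
    rw [h2]
    exact hw _

theorem exists_spec' {A : Set (Fin n → ℂ)} (hA : IsSubvariety A) {D : Set ℂ} (hD : D.Infinite)
    (E : Finset (Fin n)) (hE : E.card = dim A)
    (hind : ∀ f : MvPolynomial (Fin n) ℂ, f ≠ 0 → f.vars ⊆ E → ∃ x ∈ A, eval x f ≠ 0) :
    ∃ x ∈ A, ∀ i ∈ E, x i ∈ D := by
  have hne : ∃ x ∈ A, eval x (1 : MvPolynomial (Fin n) ℂ) ≠ 0 := hind 1 one_ne_zero (by simp)
  obtain ⟨x, hx, -, hxD⟩ := exists_spec_dense hA hD E hE hind hne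
  exact ⟨x, hx, hxD⟩

/-- a coordinate which is not constant takes a value in a given infinite set -/
theorem exists_spec_coord {A : Set (Fin n → ℂ)} (hA : IsSubvariety A) {D : Set ℂ} (hD : D.Infinite)
    {i : Fin n} (hi : ∀ f : MvPolynomial (Fin n) ℂ, f ≠ 0 → f.vars ⊆ {i} → ∃ x ∈ A, eval x f ≠ 0) :
    ∃ x ∈ A, x i ∈ D := by
  obtain ⟨E, h0, h1, h2⟩ := exists_basis_extend hA {i} hi
  obtain ⟨x, hx, hxD⟩ := exists_spec' hA hD E h1 h2
  exact ⟨x, hx, hxD i (h0 (Finset.mem_singleton_self i))⟩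

theorem exists_spec {A : Set (Fin n → ℂ)} (hA : IsSubvariety A) {D : Set ℂ} (hD : D.Infinite) :
    ∃ E : Finset (Fin n), E.card = dim A ∧
      (∀ f : MvPolynomial (Fin n) ℂ, f ≠ 0 → f.vars ⊆ E → ∃ x ∈ A, eval x f ≠ 0) ∧
      ∃ x ∈ A, ∀ i ∈ E, x i ∈ D := by
  obtain ⟨E, h1, h2⟩ := exists_basis hA
  exact ⟨E, h1, h2, exists_spec' hA hD E h1 h2⟩

/-! ### There are infinitely many special points -/

end Pool.Agent.Helper20.ZD

namespace Pool.Agent.Helper20.ZD
open Pool.Agent.Helper11.ZP ModularForm Complex Filter Function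
open scoped Real MatrixGroups Topology Manifold

lemma tendsto_Ecube : Tendsto Ecube atImInfty (𝓝 1) := by
  have h1 := cuspFunction_apply_zero one_pos (isMF_Ecube.good.analytic one_pos) isMF_Ecube.good.per
  have h2 := qExpansion_coeff_zero one_pos (isMF_Ecube.good.analytic one_pos) isMF_Ecube.good.per
  rw [qexp_Ecube_lowest.2] at h2
  have h3 := (isMF_Ecube.good.analytic one_pos).continuousAt.tendsto.comp
    (qParam_tendsto_atImInfty one_pos)
  rw [h1, ← h2] at h3
  refine h3.congr fun τ => ?_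
  simpa using eq_cuspFunction τ one_ne_zero isMF_Ecube.good.per

/-- **there are infinitely many special points** -/
theorem infinite_special : {x : ℂ | IsSpecialPoint x}.Infinite := by
  intro hfin
  obtain ⟨M, hM⟩ := hfin.isBounded.exists_norm_le
  let τ : ℕ → ℍ := fun k => ⟨((k : ℂ) + 1) * Complex.I, by
    simp
    positivity⟩
  have hτim : ∀ k, (τ k).im = k + 1 := by
    intro k
    change ((((k : ℂ) + 1) * Complex.I).im) = k + 1
    simp
  have hτ : Tendsto τ atTop atImInfty := by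
    rw [atImInfty, tendsto_comap_iff]
    have h1 : UpperHalfPlane.im ∘ τ = fun k : ℕ => (k : ℝ) + 1 := funext hτim
    rw [h1]
    exact tendsto_atTop_add_const_right _ _ tendsto_natCast_atTop_atTop
  have hmem : ∀ k, ‖jInv (τ k)‖ ≤ M := by
    intro k
    refine hM _ ⟨τ k, 1, 0, ((k : ℤ) + 1) ^ 2, one_ne_zero, ?_, rfl⟩
    change ((1 : ℤ) : ℂ) * (((k : ℂ) + 1) * Complex.I) ^ 2 + ((0 : ℤ) : ℂ) * (((k : ℂ) + 1) * Complex.I) + _ = 0
    push_cast
    rw [mul_pow, Complex.I_sq]
    ring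
  have hD : Tendsto ModularForm.discriminant atImInfty (𝓝 0) := discriminant_isZeroAtImInfty
  have h1 := tendsto_Ecube.comp hτ
  have h2 := hD.comp hτ
  have h3 : Tendsto (fun k => jInv (τ k) * ModularForm.discriminant (τ k)) atTop (𝓝 0) := by
    refine squeeze_zero_norm (a := fun k => M * ‖ModularForm.discriminant (τ k)‖) (fun k => ?_) ?_
    · rw [norm_mul]
      exact mul_le_mul_of_nonneg_right (hmem k) (norm_nonneg _)
    · have h4 := (h2.norm).const_mul M
      simpa using h4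
  have h5 : (fun k => jInv (τ k) * ModularForm.discriminant (τ k)) = Ecube ∘ τ :=
    funext fun k => jInv_mul (τ k)
  rw [h5] at h3
  exact zero_ne_one (tendsto_nhds_unique h3 h1)

end Pool.Agent.Helper20.ZD
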