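import Pool.Agent.Helper20.ZD.Splits
import Pool.Agent.Helper20.ZD.Near
import Pool.Agent.Helper20.ZT.Defs

/-! # Translates -/

open MvPolynomial Finset

namespace Pool.Agent.Helper20.ZD
open Pool.Agent.Helper11.ZP Pool.Agent.Helper11.ZU Pool.Agent.Helper20.ZT

variable {n : ℕ}

/-- a polynomial which contains its top monomial has no zeros with all coordinates large -/
lemma exists_small_coord {v : AbsoluteValue ℂ ℝ} (hv : IsNonarchimedean v) {J : Finset (Fin n)}
    {f : MvPolynomial (Fin n) ℂ} (hf : TopIn J f) {R : ℝ} (hR1 : 1 ≤ R)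
    (hR : ∀ m, v (f.coeff m) ≤ R * v (f.coeff (Finsupp.equivFunOnFinite.symm fun i => f.degreeOf i)))
    {z : Fin n → ℂ} (hz : eval z f = 0) : ∃ i ∈ J, v (z i) ≤ R := by
  classical
  by_contra hcon
  push Not at hcon
  set t : Fin n →₀ ℕ := Finsupp.equivFunOnFinite.symm fun i => f.degreeOf i with ht
  have hti : ∀ i, t i = f.degreeOf i := fun i => rfl
  have hc0 : 0 < v (f.coeff t) := (AbsoluteValue.pos_iff v).2 hf.top
  have hdeg : ∀ i ∉ J, f.degreeOf i = 0 := fun i hi => by
    refine Nat.le_zero.1 (degreeOf_le_iff.2 fun m hm => Nat.le_zero.2 ?_)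
    by_contra h
    exact hi (hf.vars ((mem_vars_iff_mem_support i).2 ⟨m, hm, Finsupp.mem_support_iff.2 h⟩))
  have hz1 : ∀ i ∈ J, 1 ≤ v (z i) := fun i hi => hR1.trans (hcon i hi).le
  have hP : 0 < ∏ i, v (z i) ^ t i := by
    refine prod_pos fun i _ => ?_
    by_cases hi : i ∈ J
    · exact pow_pos (zero_lt_one.trans_le (hz1 i hi)) _
    · rw [hti, hdeg i hi, pow_zero]; exact one_pos
  -- the other monomials are smaller
  have hsmall : ∀ m ∈ f.support.erase t, v (f.coeff m * ∏ i, z i ^ m i) < v (f.coeff t * ∏ i, z i ^ t i) := by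
    intro m hm
    obtain ⟨hmt, hms⟩ := mem_erase.1 hm
    obtain ⟨j, hj⟩ : ∃ j, m j ≠ t j := by
      by_contra h
      push Not at h
      exact hmt (Finsupp.ext h)
    have hjlt : m j < t j := lt_of_le_of_ne (monomial_le_degreeOf j hms) hj
    have hjJ : j ∈ J := by
      by_contra h
      rw [hti, hdeg j h] at hjlt
      exact absurd hjlt (Nat.not_lt_zero _)
    have hle : ∀ i, v (z i) ^ m i ≤ v (z i) ^ t i := by
      intro i
      by_cases hi : i ∈ J
      · exact pow_le_pow_right₀ (hz1 i hi) (monomial_le_degreeOf i hms)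
      · have h1 : m i = 0 := Nat.le_zero.1 (hdeg i hi ▸ monomial_le_degreeOf i hms)
        rw [hti, hdeg i hi, h1]
    have hmj : v (z j) ^ m j * v (z j) ≤ v (z j) ^ t j := by
      rw [← pow_succ]
      exact pow_le_pow_right₀ (hz1 j hjJ) (by omega)
    have hprod : (∏ i, v (z i) ^ m i) * v (z j) ≤ ∏ i, v (z i) ^ t i := by
      rw [← mul_prod_erase univ _ (mem_univ j), ← mul_prod_erase univ (fun i => v (z i) ^ t i) (mem_univ j),
        mul_right_comm]
      exact mul_le_mul hmj (prod_le_prod (fun i _ => pow_nonneg (AbsoluteValue.nonneg v _) _) fun i _ => hle i)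
        (prod_nonneg fun i _ => pow_nonneg (AbsoluteValue.nonneg v _) _)
        (pow_nonneg (AbsoluteValue.nonneg v _) _)
    have hPm : 0 ≤ ∏ i, v (z i) ^ m i := prod_nonneg fun i _ => pow_nonneg (AbsoluteValue.nonneg v _) _
    rw [map_mul, map_mul, map_prod, map_prod]
    simp only [map_pow]
    have hRj := hcon j hjJ
    rcases hPm.eq_or_lt with h0 | hpos
    · rw [← h0, mul_zero]
      exact mul_pos hc0 hP
    · calc v (f.coeff m) * ∏ i, v (z i) ^ m i ≤ (R * v (f.coeff t)) * ∏ i, v (z i) ^ m i :=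
            mul_le_mul_of_nonneg_right (hR m) hPm
        _ = v (f.coeff t) * ((∏ i, v (z i) ^ m i) * R) := by ring
        _ < v (f.coeff t) * ((∏ i, v (z i) ^ m i) * v (z j)) :=
            mul_lt_mul_of_pos_left (mul_lt_mul_of_pos_left hRj hpos) hc0
        _ ≤ v (f.coeff t) * ∏ i, v (z i) ^ t i := mul_le_mul_of_nonneg_left hprod hc0.le
  have htm : t ∈ f.support := mem_support_iff.2 hf.top
  have hsum : f.coeff t * ∏ i, z i ^ t i + ∑ m ∈ f.support.erase t, f.coeff m * ∏ i, z i ^ m i = 0 := by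
    rw [eval_eq'] at hz
    rw [← hz]
    exact add_sum_erase f.support (fun m => f.coeff m * ∏ i, z i ^ m i) htm
  have hpos : 0 < v (f.coeff t * ∏ i, z i ^ t i) := by
    rw [map_mul, map_prod]
    simp only [map_pow]
    exact mul_pos hc0 hP
  have hlt : v (∑ m ∈ f.support.erase t, f.coeff m * ∏ i, z i ^ m i) < v (f.coeff t * ∏ i, z i ^ t i) := by
    rcases (f.support.erase t).eq_empty_or_nonempty with h0 | hne
    · rw [h0, sum_empty, map_zero]; exact hpos
    · obtain ⟨m₀, hm₀, hmax⟩ := exists_max_image (f.support.erase t)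
        (fun m => v (f.coeff m * ∏ i, z i ^ m i)) hne
      exact (val_sum_le hv _ _ (AbsoluteValue.nonneg v _) fun m hm => hmax m hm).trans_lt (hsmall m₀ hm₀)
  have h1 := v_add_eq hv hlt
  rw [hsum, map_zero] at h1
  exact hpos.ne h1

/-- **translates** of a set in general position at the cusps by large vectors -/
theorem atMost_translate {v : AbsoluteValue ℂ ℝ} (hv : IsNonarchimedean v) {d : ℕ} {Z : Set (Fin n → ℂ)}
    (hZ : GenPos d Z) : ∃ R : ℝ, ∀ a : Fin n → ℂ, (∀ i, R < v (a i)) → ∃ (F : Finset ℂ) (ρ : ℝ),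
      (∀ c ∈ F, 1 < v c) ∧ ρ < 1 ∧ AtMost d (discs v F ρ) {x | (fun i => x i - a i) ∈ Z} := by
  classical
  have hZ' : ∀ J : Finset (Fin n), ∃ f : MvPolynomial (Fin n) ℂ, J.card = d + 1 →
      TopIn J f ∧ ∀ z ∈ Z, eval z f = 0 := by
    intro J
    by_cases h : J.card = d + 1
    · obtain ⟨f, hf⟩ := hZ J h
      exact ⟨f, fun _ => hf⟩
    · exact ⟨0, fun h' => absurd h' h⟩
  choose f hf using hZ'
  set top : Finset (Fin n) → ℂ := fun J => (f J).coeff (Finsupp.equivFunOnFinite.symm fun i => (f J).degreeOf i)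
    with htop
  set R : ℝ := 1 + ∑ J : Finset (Fin n), ∑ m ∈ (f J).support, v ((f J).coeff m) / v (top J) with hR
  have hnn : ∀ (J : Finset (Fin n)) (m : Fin n →₀ ℕ), 0 ≤ v ((f J).coeff m) / v (top J) := fun J m =>
    div_nonneg (AbsoluteValue.nonneg v _) (AbsoluteValue.nonneg v _)
  have hR1 : 1 ≤ R := by
    rw [hR, le_add_iff_nonneg_right]
    exact sum_nonneg fun J _ => sum_nonneg fun m _ => hnn J m
  have hRJ : ∀ J : Finset (Fin n), J.card = d + 1 → ∀ m, v ((f J).coeff m) ≤ R * v (top J) := by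
    intro J hJ m
    have h0 : 0 < v (top J) := (AbsoluteValue.pos_iff v).2 (hf J hJ).1.top
    by_cases hm : m ∈ (f J).support
    · rw [← div_le_iff₀ h0]
      have h1 : v ((f J).coeff m) / v (top J) ≤ ∑ m ∈ (f J).support, v ((f J).coeff m) / v (top J) :=
        single_le_sum (f := fun m => v ((f J).coeff m) / v (top J)) (fun m _ => hnn J m) hm
      have h2 : ∑ m ∈ (f J).support, v ((f J).coeff m) / v (top J) ≤
          ∑ J : Finset (Fin n), ∑ m ∈ (f J).support, v ((f J).coeff m) / v (top J) :=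
        single_le_sum (f := fun J => ∑ m ∈ (f J).support, v ((f J).coeff m) / v (top J))
          (fun J _ => sum_nonneg fun m _ => hnn J m) (mem_univ J)
      rw [hR]
      linarith
    · rw [notMem_support_iff.1 hm, map_zero]
      exact mul_nonneg (zero_le_one.trans hR1) h0.le
  refine ⟨R, fun a ha => ?_⟩
  -- the radius
  obtain ⟨ρ, hρ1, hρ⟩ : ∃ ρ : ℝ, ρ < 1 ∧ ∀ i, R ≤ ρ * v (a i) := by
    rcases (univ : Finset (Fin n)).eq_empty_or_nonempty with h0 | hne
    · exact ⟨0, zero_lt_one, fun i => absurd (mem_univ i) (by rw [h0]; exact notMem_empty i)⟩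
    · obtain ⟨i₀, -, hi₀⟩ := exists_min_image univ (fun i => v (a i)) hne
      have hpos : 0 < v (a i₀) := (zero_lt_one.trans_le hR1).trans (ha i₀)
      refine ⟨R / v (a i₀), (div_lt_one hpos).2 (ha i₀), fun i => ?_⟩
      rw [div_mul_eq_mul_div, le_div_iff₀ hpos]
      exact mul_le_mul_of_nonneg_left (hi₀ i (mem_univ i)) (zero_le_one.trans hR1)
  refine ⟨univ.image a, ρ, fun c hc => ?_, hρ1, fun x hx J hJ => ?_⟩
  · obtain ⟨i, -, rfl⟩ := mem_image.1 hc
    exact hR1.trans_lt (ha i)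
  · by_contra hcon
    push Not at hcon
    obtain ⟨J', hJ'J, hJ'⟩ := exists_subset_card_eq (show d + 1 ≤ J.card from hcon)
    obtain ⟨h1, h2⟩ := hf J' hJ'
    obtain ⟨i, hi, hi2⟩ := exists_small_coord hv h1 hR1 (hRJ J' hJ') (h2 _ hx)
    exact hJ i (hJ'J hi) ⟨a i, mem_image_of_mem _ (mem_univ _), hi2.trans (hρ i)⟩

end Pool.Agent.Helper20.ZD
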